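import Pool.Agent.E8helper15.FT.Main3
import Pool.Agent.E8helper71.FT.HT
import Pool.Agent.E8helper3.FT.Iter2

/-! The three term case of the abcd conjecture over a number field: reduction to thin families. -/

set_option autoImplicit false

namespace Pool.Agent.E8helper15.FT

open NumberField IsDedekindDomain Height

variable {K : Type} [Field K] [NumberField K]

/-- the height of the point `(z 0 : z 1 : z 2)` of the projective plane over the number field `K` -/
noncomputable def hP (z : Fin 3 → K) : ℝ := Height.logHeight z / Module.finrank ℚ K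

/-- the radical of the point `(z 0 : z 1 : z 2)`: the sum of `log N𝔭` over the primes at which the
orders of the coordinates are not all equal, divided by the degree of `K` -/
noncomputable def radP (z : Fin 3 → K) : ℝ :=
  (∑ᶠ v ∈ {v : HeightOneSpectrum (𝓞 K) | v.valuation K (z 0) ≠ v.valuation K (z 2) ∨
    v.valuation K (z 1) ≠ v.valuation K (z 2)}, Real.log (Ideal.absNorm v.asIdeal)) /
      Module.finrank ℚ K

/-- the three term case of the abcd conjecture for the points of the set `T` -/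
def Abcd (T : Set (Fin 3 → K)) : Prop :=
  ∀ ε : ℝ, 0 < ε → ∃ C : ℝ, ∀ z ∈ T, (∀ i, z i ≠ 0) → z 0 + z 1 + z 2 = 0 →
    hP z < (1 + ε) * radP z + C

/-- the point `(- (2 t)⁴ : (2 t)⁴ - (1 - t²)⁴ : (1 - t²)⁴)` -/
def pt (t : K) : Fin 3 → K :=
  ![-(2 * t) ^ 4, (2 * t) ^ 4 - (1 - t ^ 2) ^ 4, (1 - t ^ 2) ^ 4]

/-- the points `pt t`, where `t` is the `m`-th power of the value at `x` of the `k`-th iterate of the
map `x ↦ 4 x (1 - x)` -/
def FamP (K : Type) [Field K] [NumberField K] (k m : ℕ) : Set (Fin 3 → K) :=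
  {z | ∃ x : K, z = pt ((logi^[k] x) ^ m)}

lemma ht_cmp : ∃ c : ℝ, ∀ z : Fin 3 → K, z 0 + z 1 + z 2 = 0 →
    logHeight z ≤ logHeight₁ (-(z 0 / z 2)) + c ∧ logHeight₁ (-(z 0 / z 2)) ≤ logHeight z + c := by
  set A : Fin 3 × Fin 2 → K := fun a =>
    (![![1, 0], ![-1, -1], ![0, 1]] : Fin 3 → Fin 2 → K) a.1 a.2 with hA
  set B : Fin 2 × Fin 3 → K := fun a =>
    (![![1, 0, 0], ![0, 0, 1]] : Fin 2 → Fin 3 → K) a.1 a.2 with hB
  obtain ⟨c1, hc1⟩ : ∃ c : ℝ, ∀ x : Fin 2 → K,
      logHeight (fun j => ∑ i, A (j, i) * x i) ≤ c + logHeight x :=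
    ⟨_, fun x => logHeight_linearMap_apply_le A x⟩
  obtain ⟨c2, hc2⟩ : ∃ c : ℝ, ∀ x : Fin 3 → K,
      logHeight (fun j => ∑ i, B (j, i) * x i) ≤ c + logHeight x :=
    ⟨_, fun x => logHeight_linearMap_apply_le B x⟩
  refine ⟨max c1 c2, fun z hz => ?_⟩
  rw [logHeight₁_neg, logHeight₁_div_eq_logHeight]
  have e1 : (fun j => ∑ i, A (j, i) * ![z 0, z 2] i) = z := by
    funext j
    have hz1 : z 1 = -z 0 - z 2 := by linear_combination hz
    fin_cases j
    · simp [hA, Fin.sum_univ_two]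
    · simp [hA, Fin.sum_univ_two, hz1]
      ring
    · simp [hA, Fin.sum_univ_two]
  have e2 : (fun j => ∑ i, B (j, i) * z i) = ![z 0, z 2] := by
    funext j
    fin_cases j
    · simp [hB, Fin.sum_univ_three]
    · simp [hB, Fin.sum_univ_three]
  have h1 := hc1 ![z 0, z 2]
  have h2 := hc2 z
  rw [e1] at h1
  rw [e2] at h2
  exact ⟨by linarith [le_max_left c1 c2], by linarith [le_max_right c1 c2]⟩

lemma rad_cmp (h : S_SUP) (z : Fin 3 → K) (h0 : ∀ i, z i ≠ 0) (hz : z 0 + z 1 + z 2 = 0) :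
    -(z 0 / z 2) ≠ 0 ∧ -(z 0 / z 2) ≠ 1 ∧
    Real.log (lrad (-(z 0 / z 2))) = Module.finrank ℚ K * radP z := by
  set l : K := -(z 0 / z 2) with hl
  have hl0 : l ≠ 0 := neg_ne_zero.2 (div_ne_zero (h0 0) (h0 2))
  have hl2 : 1 - l = -(z 1 / z 2) := by
    rw [hl]
    have := h0 2
    field_simp
    linear_combination hz
  have hl1 : l ≠ 1 := by
    intro e
    rw [e, sub_self] at hl2
    exact neg_ne_zero.2 (div_ne_zero (h0 1) (h0 2)) hl2.symm
  refine ⟨hl0, hl1, ?_⟩
  have hf := supp_finite h l hl0 hl1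
  have hset : {v : HeightOneSpectrum (𝓞 K) | v.valuation K (z 0) ≠ v.valuation K (z 2) ∨
      v.valuation K (z 1) ≠ v.valuation K (z 2)} = Supp l := by
    ext v
    have hv2 : v.valuation K (z 2) ≠ 0 := (Valuation.ne_zero_iff _).2 (h0 2)
    have e0 : v.valuation K l = v.valuation K (z 0) / v.valuation K (z 2) := by
      rw [hl, Valuation.map_neg, map_div₀]
    have e1 : v.valuation K (1 - l) = v.valuation K (z 1) / v.valuation K (z 2) := by
      rw [hl2, Valuation.map_neg, map_div₀]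
    change _ ↔ (v.valuation K l ≠ 1 ∨ v.valuation K (1 - l) ≠ 1)
    rw [e0, e1, Ne, Ne, div_eq_one_iff_eq hv2, div_eq_one_iff_eq hv2]
    rfl
  have hn : (Module.finrank ℚ K : ℝ) ≠ 0 := by
    exact_mod_cast (Module.finrank_pos (R := ℚ) (M := K)).ne'
  unfold radP
  rw [mul_div_cancel₀ _ hn, hset, finsum_mem_eq_finite_toFinset_sum _ hf, log_lrad l hf]

/-- the equivalence -/
theorem abcd_iff (hi : S_ITER) (hi2 : S_ITER2) (hi3 : S_ITER3) (h : S_SUP) (k m : ℕ)
    (hm : 1 ≤ m) : Abcd (Set.univ : Set (Fin 3 → K)) ↔ Abcd (FamP K k m) := by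
  have hn : 0 < (Module.finrank ℚ K : ℝ) := by
    exact_mod_cast (Module.finrank_pos (R := ℚ) (M := K))
  obtain ⟨c, hc⟩ := ht_cmp (K := K)
  constructor
  · intro hF ε hε
    obtain ⟨C, hC⟩ := hF ε hε
    exact ⟨C, fun z _ => hC z (Set.mem_univ _)⟩
  · intro hF
    have h1 : Abc {l : K | ∃ t ∈ {t : K | ∃ s ∈ Set.range (logi^[k] : K → K), t = s ^ m},
        t ^ 2 ≠ 1 ∧ l = big t} := by
      intro ε hε
      obtain ⟨C, hC⟩ := hF ε hε
      refine ⟨Module.finrank ℚ K * C + c, ?_⟩
      rintro l ⟨t, ⟨s, ⟨x, rfl⟩, rfl⟩, ht, rfl⟩ hl0 hl1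
      set t : K := (logi^[k] x) ^ m with htd
      have ht2 : (1 : K) - t ^ 2 ≠ 0 := sub_ne_zero.2 (Ne.symm ht)
      have hb : big t = -((pt t) 0 / (pt t) 2) := by
        have p0 : (pt t) 0 = -(2 * t) ^ 4 := rfl
        have p2 : (pt t) 2 = (1 - t ^ 2) ^ 4 := rfl
        rw [p0, p2, neg_div, neg_neg, ← div_pow]
        rfl
      have hz : (pt t) 0 + (pt t) 1 + (pt t) 2 = 0 := by
        simp only [pt, Matrix.cons_val]
        ring
      have hz0 : ∀ i, (pt t) i ≠ 0 := by
        intro i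
        fin_cases i
        · intro e
          apply hl0
          rw [hb]
          have : (pt t) 0 = 0 := e
          rw [this, zero_div, neg_zero]
        · intro e
          apply hl1
          have e' : (2 * t) ^ 4 - (1 - t ^ 2) ^ 4 = 0 := by simpa [pt] using e
          unfold big
          rw [div_pow, div_eq_one_iff_eq (pow_ne_zero 4 ht2)]
          exact sub_eq_zero.1 e'
        · simpa [pt] using ht2
      obtain ⟨-, -, hr⟩ := rad_cmp h (pt t) hz0 hz
      have h2 := hC (pt t) ⟨x, rfl⟩ hz0 hz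
      have h3 := (hc (pt t) hz).2
      rw [← hb] at h3 hr
      unfold hP at h2
      rw [div_lt_iff₀ hn] at h2
      have h4 : ((1 + ε) * radP (pt t) + C) * Module.finrank ℚ K =
          (1 + ε) * (Module.finrank ℚ K * radP (pt t)) + Module.finrank ℚ K * C := by ring
      rw [h4, ← hr] at h2
      linarith
    have h2 : Abc (Set.univ : Set K) := by
      have h3 := hi3 K _ m hm (hi2 K _ h1)
      have h4 : ∀ j : ℕ, Abc (Set.range (logi^[j] : K → K)) → Abc (Set.univ : Set K) := by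
        intro j
        induction j with
        | zero =>
          intro h5
          have : Set.range (logi^[0] : K → K) = Set.univ := by simp
          rwa [this] at h5
        | succ j ih =>
          intro h5
          apply ih
          apply hi K
          have : logi '' (Set.range (logi^[j] : K → K)) = Set.range (logi^[j + 1] : K → K) := by
            rw [Function.iterate_succ', Set.range_comp]
          rw [this]
          exact h5
      exact h4 k h3
    intro ε hε
    obtain ⟨C, hC⟩ := h2 ε hε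
    refine ⟨(C + c) / Module.finrank ℚ K + 1, fun z _ hz0 hz => ?_⟩
    obtain ⟨hl0, hl1, hr⟩ := rad_cmp h z hz0 hz
    have h3 := hC _ (Set.mem_univ _) hl0 hl1
    have h4 := (hc z hz).1
    rw [hr] at h3
    unfold hP
    rw [div_lt_iff₀ hn]
    have h5 : ((1 + ε) * radP z + ((C + c) / Module.finrank ℚ K + 1)) * Module.finrank ℚ K =
        (1 + ε) * (Module.finrank ℚ K * radP z) + (C + c) + Module.finrank ℚ K := by
      field_simp
      ring
    rw [h5]
    linarith

/-- the heights of the points of the family -/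
theorem abcd_height (hht : S_HT) (k m : ℕ) (hm : 1 ≤ m) : ∃ C : ℝ, ∀ x : K,
    ((logi^[k] x) ^ m) ^ 2 ≠ 1 →
      8 * m * 2 ^ k * (Height.logHeight₁ x / Module.finrank ℚ K) ≤
        hP (pt ((logi^[k] x) ^ m)) + C := by
  have hn : 0 < (Module.finrank ℚ K : ℝ) := by
    exact_mod_cast (Module.finrank_pos (R := ℚ) (M := K))
  have hm0 : (0 : ℝ) < m := by exact_mod_cast hm
  obtain ⟨c, hc⟩ := ht_cmp (K := K)
  obtain ⟨c1, hc1⟩ := hht K
  obtain ⟨c2, hc2⟩ := Pool.Agent.E8helper3.FT.height_big (K := K)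
  have hiter : ∀ j : ℕ, ∃ D : ℝ, ∀ x : K,
      2 ^ j * logHeight₁ x ≤ logHeight₁ (logi^[j] x) + D := by
    intro j
    induction j with
    | zero => exact ⟨0, fun x => by simp⟩
    | succ j ih =>
      obtain ⟨D, hD⟩ := ih
      refine ⟨2 * D + c1, fun x => ?_⟩
      have h1 := hD x
      have h2 := (hc1 (logi^[j] x)).1
      rw [Function.iterate_succ_apply', pow_succ]
      linarith
  obtain ⟨D, hD⟩ := hiter k
  refine ⟨(8 * m * D + c2 + c) / Module.finrank ℚ K, fun x hx => ?_⟩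
  set t : K := (logi^[k] x) ^ m with ht
  have ht2 : (1 : K) - t ^ 2 ≠ 0 := sub_ne_zero.2 (Ne.symm hx)
  have h1 := hD x
  have h2 := hc2 t hx
  have h3 : logHeight₁ t = m * logHeight₁ (logi^[k] x) := by rw [ht, logHeight₁_pow]
  have hz : (pt t) 0 + (pt t) 1 + (pt t) 2 = 0 := by
    simp only [pt, Matrix.cons_val]
    ring
  have h4 := (hc (pt t) hz).2
  have hb : big t = -((pt t) 0 / (pt t) 2) := by
    have p0 : (pt t) 0 = -(2 * t) ^ 4 := rfl
    have p2 : (pt t) 2 = (1 - t ^ 2) ^ 4 := rfl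
    rw [p0, p2, neg_div, neg_neg, ← div_pow]
    rfl
  rw [← hb] at h4
  have h5 : 8 * m * (2 ^ k * logHeight₁ x) ≤ 8 * m * (logHeight₁ (logi^[k] x) + D) :=
    mul_le_mul_of_nonneg_left h1 (by positivity)
  have h6 : 8 * m * 2 ^ k * logHeight₁ x ≤ logHeight (pt t) + (8 * m * D + c2 + c) := by
    have : 8 * (m : ℝ) * (2 ^ k * logHeight₁ x) = 8 * m * 2 ^ k * logHeight₁ x := by ring
    have h7 : 8 * (m : ℝ) * (logHeight₁ (logi^[k] x) + D) =
        8 * logHeight₁ t + 8 * m * D := by rw [h3]; ring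
    linarith
  unfold hP
  rw [← add_div, ← mul_div_assoc]
  exact div_le_div_of_nonneg_right h6 hn.le

end Pool.Agent.E8helper15.FT
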