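import Pool.Agent.E8helper71.FT.HT

/-! Project FT: the heights of the Legendre parameter and of the modular invariant. -/

set_option autoImplicit false

namespace Pool.Agent.E8helper15.FT

open NumberField IsDedekindDomain Height MvPolynomial
open Pool.Agent.TH876.FH (LhS)

variable {K : Type} [Field K] [NumberField K]

/-- the forms -/
noncomputable def pp : Fin 2 → MvPolynomial (Fin 2) K :=
  ![X 0 ^ 3, (X 0 + X 1) * X 1 ^ 2]

noncomputable def qq : Fin 2 × Fin 2 → MvPolynomial (Fin 2) K := fun a =>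
  (![![X 0 ^ 2, 0], ![-X 1 ^ 2, X 0 ^ 2 - X 0 * X 1 + X 1 ^ 2]] : Fin 2 → Fin 2 →
    MvPolynomial (Fin 2) K) a.1 a.2

lemma qq_hom (a : Fin 2 × Fin 2) : (qq a : MvPolynomial (Fin 2) K).IsHomogeneous 2 := by
  have h0 : (X 0 ^ 2 : MvPolynomial (Fin 2) K).IsHomogeneous 2 := by
    simpa using (isHomogeneous_X K (0 : Fin 2)).pow 2
  have h1 : (X 1 ^ 2 : MvPolynomial (Fin 2) K).IsHomogeneous 2 := by
    simpa using (isHomogeneous_X K (1 : Fin 2)).pow 2
  have h2 : (X 0 * X 1 : MvPolynomial (Fin 2) K).IsHomogeneous 2 := by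
    simpa using (isHomogeneous_X K (0 : Fin 2)).mul (isHomogeneous_X K (1 : Fin 2))
  obtain ⟨i, j⟩ := a
  fin_cases i <;> fin_cases j
  · simpa [qq] using h0
  · simpa [qq] using isHomogeneous_zero (Fin 2) K 2
  · simpa [qq] using h1.neg
  · simpa [qq] using (h0.sub h2).add h1

lemma key : ∃ c : ℝ, ∀ y : K, y + 1 ≠ 0 →
    3 * logHeight₁ y ≤ logHeight₁ (y ^ 3 / (y + 1)) + c := by
  obtain ⟨C, hC⟩ := logHeight_eval_ge' (K := K) (ι := Fin 2) (ι' := Fin 2) (M := 2) (N := 3)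
    (q := qq) (fun a => qq_hom a)
  refine ⟨-C, fun y hy => ?_⟩
  have h := hC pp (x := ![y, 1]) (by
    intro k
    fin_cases k
    · simp [qq, pp, Fin.sum_univ_two]
      ring
    · simp [qq, pp, Fin.sum_univ_two]
      ring)
  rw [logHeight₁_eq_logHeight, logHeight₁_div_eq_logHeight]
  have e : (fun j => (pp j).eval ![y, 1]) = ![y ^ 3, y + 1] := by
    funext j
    fin_cases j
    · simp [pp]
    · simp [pp]
  rw [e] at h
  push_cast at h
  linarith

theorem t_LH (h1 : S_HT) : LhS := by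
  intro K _ _
  obtain ⟨c1, hc1⟩ := h1 K
  obtain ⟨c2, hc2⟩ := key (K := K)
  set D : ℝ := (totalWeight K : ℝ) * Real.log 2 with hD
  refine ⟨3 * c1 + 3 * logHeight₁ (4 : K) + 3 * D + c2 + logHeight₁ ((256 : K)⁻¹), ?_⟩
  intro j l hl0 hl1 hj
  have hs : l * (1 - l) ≠ 0 := mul_ne_zero hl0 (sub_ne_zero.2 (Ne.symm hl1))
  set s : K := l * (1 - l) with hsd
  set y : K := s⁻¹ - 1 with hy
  have hy1 : y + 1 = s⁻¹ := by rw [hy]; ring
  have hy2 : y + 1 ≠ 0 := by rw [hy1]; exact inv_ne_zero hs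
  have hone : logHeight₁ (1 : K) = 0 := logHeight₁_one
  have e1 : 2 * logHeight₁ l ≤ logHeight₁ (logi l) + c1 := (hc1 l).1
  have e2 : logHeight₁ (logi l) ≤ logHeight₁ (4 : K) + logHeight₁ s := by
    have : logi l = 4 * s := by rw [hsd]; unfold logi; ring
    rw [this]
    exact logHeight₁_mul_le _ _
  have e3 : logHeight₁ s ≤ logHeight₁ y + D := by
    have g1 : logHeight₁ s = logHeight₁ (y + 1) := by rw [hy1, logHeight₁_inv]
    have g2 := logHeight₁_add_le y (1 : K)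
    rw [g1]
    linarith
  have e4 := hc2 y hy2
  have e5 : logHeight₁ (y ^ 3 / (y + 1)) ≤ logHeight₁ j + logHeight₁ ((256 : K)⁻¹) := by
    have : y ^ 3 / (y + 1) = j * (256 : K)⁻¹ := by
      have h3 : l ^ 2 * (1 - l) ^ 2 = s ^ 2 := by rw [hsd]; ring
      have h4 : l ^ 2 - l + 1 = 1 - s := by rw [hsd]; ring
      rw [h3, h4] at hj
      have hj' : j = 256 * (1 - s) ^ 3 / s ^ 2 := by
        rw [eq_div_iff (pow_ne_zero 2 hs)]
        exact hj
      rw [hj', hy1, hy]
      have h256 : (256 : K) ≠ 0 := by norm_num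
      field_simp
    rw [this]
    exact logHeight₁_mul_le _ _
  linarith

end Pool.Agent.E8helper15.FT
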