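import Pool.Agent.E8helper15.FT.Abcd

/-! The primes `𝔭` such that `N𝔭 - 1` divides `m`. -/

set_option autoImplicit false

namespace Pool.Agent.E8helper15.FT

open NumberField IsDedekindDomain Height

variable {K : Type} [Field K] [NumberField K]

lemma fermat (v : HeightOneSpectrum (𝓞 K)) (y : K) (hy : v.valuation K y = 1) (m : ℕ)
    (hm : Ideal.absNorm v.asIdeal - 1 ∣ m) : v.valuation K (1 - y ^ m) < 1 := by
  obtain ⟨a, ha⟩ := v.exists_valuation_sub_lt_of_integer hy.le 1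
  have hav : v.valuation K (algebraMap (𝓞 K) K a) = 1 := by
    have h1 : algebraMap (𝓞 K) K a = (algebraMap (𝓞 K) K a - y) + y := by ring
    rw [h1, Valuation.map_add_eq_of_lt_right _ (by rw [hy]; simpa using ha)]
    exact hy
  have ha' : a ∉ v.asIdeal := by
    intro h
    have := (v.valuation_lt_one_iff_mem (K := K) a).2 h
    rw [hav] at this
    exact lt_irrefl _ this
  haveI hmax : v.asIdeal.IsMaximal := v.isMaximal
  letI : Field (𝓞 K ⧸ v.asIdeal) := Ideal.Quotient.field v.asIdeal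
  haveI : Finite (𝓞 K ⧸ v.asIdeal) := Ring.HasFiniteQuotients.finiteQuotient v.ne_bot
  haveI : Fintype (𝓞 K ⧸ v.asIdeal) := Fintype.ofFinite _
  have hcard : Fintype.card (𝓞 K ⧸ v.asIdeal) = Ideal.absNorm v.asIdeal := by
    rw [Ideal.absNorm_apply, Submodule.cardQuot_apply, Nat.card_eq_fintype_card]
  have h2 : (Ideal.Quotient.mk v.asIdeal a) ^ (Ideal.absNorm v.asIdeal - 1) = 1 := by
    rw [← hcard]
    apply FiniteField.pow_card_sub_one_eq_one
    rwa [Ne, Ideal.Quotient.eq_zero_iff_mem]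
  obtain ⟨q, rfl⟩ := hm
  have h3 : (Ideal.Quotient.mk v.asIdeal) (a ^ ((Ideal.absNorm v.asIdeal - 1) * q) - 1) = 0 := by
    rw [map_sub, map_pow, pow_mul, h2, one_pow, map_one, sub_self]
  rw [Ideal.Quotient.eq_zero_iff_mem] at h3
  have h4 := (v.valuation_lt_one_iff_mem (K := K) _).2 h3
  set M := (Ideal.absNorm v.asIdeal - 1) * q with hM
  have h5 : v.valuation K (algebraMap (𝓞 K) K a ^ M - y ^ M) < 1 := by
    rw [← (Commute.all (algebraMap (𝓞 K) K a) y).mul_geom_sum₂ M, map_mul]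
    refine lt_of_le_of_lt (mul_le_of_le_one_right' ?_) (by simpa using ha)
    refine Valuation.map_sum_le _ fun i _ => ?_
    rw [map_mul, map_pow, map_pow, hav, hy, one_pow, one_pow, mul_one]
  have h6 : 1 - y ^ M = -(algebraMap (𝓞 K) K (a ^ M - 1)) +
      (algebraMap (𝓞 K) K a ^ M - y ^ M) := by
    rw [map_sub, map_pow, map_one]
    ring
  rw [h6]
  refine lt_of_le_of_lt (Valuation.map_add _ _ _) (max_lt ?_ h5)
  rw [Valuation.map_neg]
  exact h4

/-- a prime `𝔭` with `N𝔭 - 1 ∣ m`, `𝔭 ∤ 2`, is in the radical of the point `pt (y ^ m)` -/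
theorem loc_pt (v : HeightOneSpectrum (𝓞 K)) (m : ℕ) (hm1 : 1 ≤ m)
    (hm : Ideal.absNorm v.asIdeal - 1 ∣ m) (h2 : v.valuation K (2 : K) = 1) (y : K) :
    v.valuation K (pt (y ^ m) 0) ≠ v.valuation K (pt (y ^ m) 2) := by
  have p0 : pt (y ^ m) 0 = -(2 * y ^ m) ^ 4 := rfl
  have p2 : pt (y ^ m) 2 = (1 - (y ^ m) ^ 2) ^ 4 := rfl
  rw [p0, p2, Valuation.map_neg, map_pow, map_pow, map_mul, h2, one_mul]
  have hm0 : m ≠ 0 := by omega
  rcases lt_trichotomy (v.valuation K y) 1 with hy | hy | hy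
  · have ht : v.valuation K (y ^ m) < 1 := by
      rw [map_pow]; exact pow_lt_one₀ zero_le hy hm0
    have h1 : v.valuation K (1 - (y ^ m) ^ 2) = 1 := by
      rw [sub_eq_add_neg, Valuation.map_add_eq_of_lt_left, map_one]
      rw [Valuation.map_neg, map_one, map_pow]
      exact pow_lt_one₀ zero_le ht two_ne_zero
    rw [h1, one_pow]
    exact (pow_lt_one₀ zero_le ht (by norm_num)).ne
  · have ht : v.valuation K (y ^ m) = 1 := by rw [map_pow, hy, one_pow]
    have h1 : v.valuation K (1 - (y ^ m) ^ 2) < 1 := by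
      have e : 1 - (y ^ m) ^ 2 = (1 - y ^ m) * (1 + y ^ m) := by ring
      rw [e, map_mul]
      refine lt_of_le_of_lt (mul_le_of_le_one_right' ?_) (fermat v y hy m hm)
      refine (Valuation.map_add _ _ _).trans (max_le ?_ ?_)
      · rw [map_one]
      · exact ht.le
    rw [ht, one_pow]
    exact (pow_lt_one₀ zero_le h1 (by norm_num)).ne'
  · have ht : 1 < v.valuation K (y ^ m) := by
      rw [map_pow]; exact one_lt_pow₀ hy hm0
    have ht2 : 1 < v.valuation K ((y ^ m) ^ 2) := by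
      rw [map_pow]; exact one_lt_pow₀ ht two_ne_zero
    have h1 : v.valuation K (1 - (y ^ m) ^ 2) = v.valuation K ((y ^ m) ^ 2) := by
      rw [sub_eq_add_neg, Valuation.map_add_eq_of_lt_right, Valuation.map_neg]
      rw [Valuation.map_neg, map_one]
      exact ht2
    rw [h1, map_pow _ (y ^ m) 2, ← pow_mul]
    exact (pow_lt_pow_right₀ ht (by norm_num)).ne

theorem loc_fam (k m : ℕ) (hm1 : 1 ≤ m) (v : HeightOneSpectrum (𝓞 K))
    (h2 : v.valuation K (2 : K) = 1) (hm : Ideal.absNorm v.asIdeal - 1 ∣ m) :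
    ∀ z ∈ FamP K k m, v.valuation K (z 0) ≠ v.valuation K (z 2) := by
  rintro z ⟨x, rfl⟩
  exact loc_pt v m hm1 hm h2 _

end Pool.Agent.E8helper15.FT
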