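import Pool.Agent.E8helper15.FT.Sem

/-! Project FT: the equivalence over `ℚ`, with the conductor. -/

set_option autoImplicit false

namespace Pool.Agent.E8helper15.FT

open NumberField IsDedekindDomain
open Pool.Agent.TH876.FH (faltings IsPeriod GoodAt badNorm HjS LhS)

/-- Frey's inequality in dimension one for the curves of the set `T`, with `N E` as the conductor -/
def FreyN (N : WeierstrassCurve ℚ → ℝ) (T : Set (WeierstrassCurve ℚ)) : Prop :=
  ∀ ε : ℝ, 0 < ε → ∃ c : ℝ, ∀ E ∈ T, E.Δ ≠ 0 →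
    ∀ τ : InfinitePlace ℚ → UpperHalfPlane, IsPeriod (E.c₄ ^ 3 / E.Δ) τ →
      faltings (E.c₄ ^ 3 / E.Δ) τ ≤ (1 / 2 + ε) * Real.log (N E) + c

/-- what we need of the conductor: it is at least the product of the bad primes, and at most a
constant times this product for the curves which are semistable outside `2` -/
def LikeConductor (N : WeierstrassCurve ℚ → ℝ) : Prop :=
  (∀ E : WeierstrassCurve ℚ, E.Δ ≠ 0 → badNorm E ≤ N E) ∧
  ∃ C : ℝ, ∀ E : WeierstrassCurve ℚ, E.Δ ≠ 0 →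
    (∀ v : HeightOneSpectrum (𝓞 ℚ), v.valuation ℚ (2 : ℚ) = 1 → SemistableAt v E) →
      N E ≤ C * badNorm E

/-- the values of the `k`-th iterate of `x ↦ 4 x (1 - x)` at the rational numbers -/
def Par (k : ℕ) : Set ℚ := Set.range (logi^[k] : ℚ → ℚ)

/-- the curves `y² = x (x - a) (x - c)`, `a` and `c` coprime integers, `a / c ∈ Par k` -/
def Fam (k : ℕ) : Set (WeierstrassCurve ℚ) :=
  {E | ∃ a c : ℤ, IsCoprime a c ∧ c ≠ 0 ∧ (a : ℚ) / c ∈ Par k ∧ E = crv a c}

lemma log_norm_nonneg {K : Type} [Field K] [NumberField K] (v : HeightOneSpectrum (𝓞 K)) :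
    0 ≤ Real.log (Ideal.absNorm v.asIdeal : ℝ) :=
  Real.log_natCast_nonneg _

lemma norm_pos {K : Type} [Field K] [NumberField K] (v : HeightOneSpectrum (𝓞 K)) :
    (Ideal.absNorm v.asIdeal : ℝ) ≠ 0 := by
  have h : Ideal.absNorm v.asIdeal ≠ 0 := by
    rw [Ne, Ideal.absNorm_eq_zero_iff]
    exact v.ne_bot
  exact_mod_cast h

lemma supp_finite (h : S_SUP) {K : Type} [Field K] [NumberField K] (l : K) (h0 : l ≠ 0)
    (h1 : l ≠ 1) : (Supp l).Finite := by
  have e1 := (h K l h0).1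
  have e2 := (h K (1 - l) (sub_ne_zero.2 (Ne.symm h1))).1
  exact (e1.union e2).subset (fun v hv => hv)

lemma log_lrad {K : Type} [Field K] [NumberField K] (l : K) (hf : (Supp l).Finite) :
    Real.log (lrad l) = ∑ v ∈ hf.toFinset, Real.log (Ideal.absNorm v.asIdeal : ℝ) := by
  unfold lrad
  rw [finprod_mem_eq_finite_toFinset_prod _ hf, Real.log_prod]
  intro v _
  exact norm_pos v

/-- the bad primes of the semistable model -/
lemma bad_crv (h : S_SUP) (hb : S_BAD) : ∃ c₀ : ℝ, ∀ a c : ℤ, IsCoprime a c → a ≠ 0 → c ≠ 0 →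
    a ≠ c → (crv a c).Δ ≠ 0 ∧
      Real.log (badNorm (crv a c)) ≤ Real.log (lrad ((a : ℚ) / c)) + c₀ := by
  classical
  have h2 : {v : HeightOneSpectrum (𝓞 ℚ) | v.valuation ℚ (2 : ℚ) ≠ 1}.Finite :=
    (h ℚ 2 (by norm_num)).1
  refine ⟨∑ v ∈ h2.toFinset, Real.log (Ideal.absNorm v.asIdeal : ℝ), ?_⟩
  intro a c hac ha hc hne
  have ha' : (a : ℚ) ≠ 0 := by exact_mod_cast ha
  have hc' : (c : ℚ) ≠ 0 := by exact_mod_cast hc
  have hca : (c : ℚ) - a ≠ 0 := by
    intro e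
    apply hne
    have : (c : ℚ) = a := by linarith
    exact_mod_cast this.symm
  have hΔ : (crv a c).Δ ≠ 0 := by
    rw [crv_delta]
    positivity
  refine ⟨hΔ, ?_⟩
  have l0 : (a : ℚ) / c ≠ 0 := div_ne_zero ha' hc'
  have l1 : (a : ℚ) / c ≠ 1 := by
    intro e
    rw [div_eq_one_iff_eq hc'] at e
    exact hne (by exact_mod_cast e)
  obtain ⟨B, hB, hlog, -⟩ := hb ℚ (crv a c) hΔ
  have hf := supp_finite h ((a : ℚ) / c) l0 l1
  rw [hlog, log_lrad _ hf]
  have hsub : B ⊆ hf.toFinset ∪ h2.toFinset := by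
    intro v hv
    rw [Finset.mem_union, Set.Finite.mem_toFinset, Set.Finite.mem_toFinset]
    by_contra hcon
    push Not at hcon
    obtain ⟨g1, g2⟩ := hcon
    refine (hB v).1 hv (good a c hac hc v ?_ g1)
    by_contra g3
    exact g2 g3
  calc ∑ v ∈ B, Real.log (Ideal.absNorm v.asIdeal : ℝ)
      ≤ ∑ v ∈ hf.toFinset ∪ h2.toFinset, Real.log (Ideal.absNorm v.asIdeal : ℝ) :=
        Finset.sum_le_sum_of_subset_of_nonneg hsub fun v _ _ => log_norm_nonneg v
    _ ≤ ∑ v ∈ hf.toFinset, Real.log (Ideal.absNorm v.asIdeal : ℝ) +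
        ∑ v ∈ h2.toFinset, Real.log (Ideal.absNorm v.asIdeal : ℝ) := by
        have e := Finset.sum_union_inter (s₁ := hf.toFinset) (s₂ := h2.toFinset)
          (f := fun v => Real.log (Ideal.absNorm v.asIdeal : ℝ))
        have e2 : 0 ≤ ∑ v ∈ hf.toFinset ∩ h2.toFinset, Real.log (Ideal.absNorm v.asIdeal : ℝ) :=
          Finset.sum_nonneg fun v _ => log_norm_nonneg v
        linarith

/-- the product of the bad primes is at least one -/
lemma bad_ge (hb : S_BAD) {E : WeierstrassCurve ℚ} (hE : E.Δ ≠ 0) :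
    0 < badNorm E ∧ 0 ≤ Real.log (badNorm E) := by
  obtain ⟨B, hB, -, h0⟩ := hb ℚ E hE
  refine ⟨?_, h0⟩
  unfold badNorm
  have hfin : {v : HeightOneSpectrum (𝓞 ℚ) | ¬ GoodAt v E}.Finite :=
    B.finite_toSet.subset fun v hv => (hB v).2 hv
  rw [finprod_mem_eq_finite_toFinset_prod _ hfin]
  refine Finset.prod_pos fun v _ => ?_
  exact lt_of_le_of_ne (Nat.cast_nonneg _) (norm_pos v).symm

/-- from Frey's inequality for the family to abc for the parameters -/
lemma down (hj : HjS) (lh : LhS) (h : S_SUP) (hb : S_BAD) (hl : S_LB) (hp : S_PER)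
    (N : WeierstrassCurve ℚ → ℝ) (hN : LikeConductor N) (k : ℕ) (hF : FreyN N (Fam k)) :
    Abc (Par k) := by
  obtain ⟨hN1, C, hN2⟩ := hN
  obtain ⟨c0, hc0⟩ := bad_crv h hb
  obtain ⟨c1, hc1⟩ := lh ℚ
  obtain ⟨c5, hc5⟩ := hl ℚ
  intro ε hε
  set t : ℝ := min 1 (ε / 5) with ht
  have ht0 : 0 < t := lt_min one_pos (by positivity)
  have ht1 : t ≤ 1 := min_le_left _ _
  have ht2 : t ≤ ε / 5 := min_le_right _ _
  obtain ⟨c2, hc2⟩ := (hj ℚ).1 t ht0
  obtain ⟨c3, hc3⟩ := hF t ht0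
  set D : ℝ := Real.log (max C 1) with hD
  refine ⟨((1 + t) * (12 * ((1 / 2 + t) * (D + c0) + c3)) + c2 + c1) / 6, ?_⟩
  intro l hlS hl0 hl1
  set a : ℤ := l.num with ha
  set c : ℤ := (l.den : ℤ) with hc
  have hden : (c : ℚ) ≠ 0 := by
    rw [hc]; exact_mod_cast l.den_ne_zero
  have hdiv : (a : ℚ) / c = l := by
    rw [ha, hc]
    push_cast
    exact Rat.num_div_den l
  have hcop : IsCoprime a c := by
    rw [Int.isCoprime_iff_gcd_eq_one, ha, hc]
    have := l.reduced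
    simpa [Int.gcd] using this
  have ha0 : a ≠ 0 := by
    rw [ha]; exact Rat.num_ne_zero.2 hl0
  have hc0' : c ≠ 0 := by
    rw [hc]; exact_mod_cast l.den_ne_zero
  have hac : a ≠ c := by
    intro e
    apply hl1
    rw [← hdiv, e]
    exact div_self hden
  obtain ⟨hΔ, hbad⟩ := hc0 a c hcop ha0 hc0' hac
  have hj1 := crv_j a c ha0 hc0' hac
  rw [hdiv] at hj1 hbad
  obtain ⟨-, hrel, -, hlr⟩ := hc5 l hl0 hl1
  have e1 := hc1 _ l hl0 hl1 hrel
  rw [← hj1] at e1
  obtain ⟨τ, hτ⟩ := hp ℚ ((crv a c).c₄ ^ 3 / (crv a c).Δ)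
  have e2 := hc2 _ τ hτ
  have hfin : (Module.finrank ℚ ℚ : ℝ) = 1 := by simp
  rw [hfin, mul_one] at e2
  have e3 := hc3 (crv a c) ⟨a, c, hcop, hc0', by rw [hdiv]; exact hlS, rfl⟩ hΔ τ hτ
  obtain ⟨hb0, hb1⟩ := bad_ge hb hΔ
  have e4 : Real.log (N (crv a c)) ≤ D + Real.log (badNorm (crv a c)) := by
    have g1 := hN1 _ hΔ
    have g2 : N (crv a c) ≤ max C 1 * badNorm (crv a c) :=
      (hN2 _ hΔ (fun v hv => semi a c hcop v hv)).trans
        (mul_le_mul_of_nonneg_right (le_max_left _ _) hb0.le)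
    rw [hD, ← Real.log_mul (by positivity) hb0.ne']
    exact Real.log_le_log (by linarith) g2
  have e5 : faltings ((crv a c).c₄ ^ 3 / (crv a c).Δ) τ ≤
      (1 / 2 + t) * (D + (Real.log (lrad l) + c0)) + c3 := by
    refine e3.trans ?_
    have : (1 / 2 + t) * Real.log (N (crv a c)) ≤
        (1 / 2 + t) * (D + (Real.log (lrad l) + c0)) :=
      mul_le_mul_of_nonneg_left (by linarith) (by positivity)
    linarith
  have e6 : 6 * Height.logHeight₁ l ≤ (1 + t) * (12 * ((1 / 2 + t) *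
      (D + (Real.log (lrad l) + c0)) + c3)) + c2 + c1 := by
    have : (1 + t) * (12 * faltings ((crv a c).c₄ ^ 3 / (crv a c).Δ) τ) ≤
        (1 + t) * (12 * ((1 / 2 + t) * (D + (Real.log (lrad l) + c0)) + c3)) :=
      mul_le_mul_of_nonneg_left (mul_le_mul_of_nonneg_left e5 (by norm_num)) (by positivity)
    linarith
  have e7 : (1 + t) * (1 + 2 * t) * Real.log (lrad l) ≤ (1 + ε) * Real.log (lrad l) := by
    refine mul_le_mul_of_nonneg_right ?_ hlr
    nlinarith
  have e8 : (1 + t) * (12 * ((1 / 2 + t) * (D + (Real.log (lrad l) + c0)) + c3)) =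
      6 * ((1 + t) * (1 + 2 * t) * Real.log (lrad l)) +
        (1 + t) * (12 * ((1 / 2 + t) * (D + c0) + c3)) := by ring
  rw [e8] at e6
  have e9 : Height.logHeight₁ l ≤ (1 + t) * (1 + 2 * t) * Real.log (lrad l) +
      ((1 + t) * (12 * ((1 / 2 + t) * (D + c0) + c3)) + c2 + c1) / 6 := by linarith
  linarith

/-- iterating -/
lemma iter (hi : S_ITER) (k : ℕ) : Abc (Par k) → Abc (Set.univ : Set ℚ) := by
  induction k with
  | zero =>
    intro h
    have : Par 0 = Set.univ := by simp [Par]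
    rwa [this] at h
  | succ k ih =>
    intro h
    apply ih
    apply hi ℚ (Par k)
    have : logi '' (Par k) = Par (k + 1) := by
      unfold Par
      rw [Function.iterate_succ', Set.range_comp]
    rw [this]
    exact h

/-- the equivalence -/
theorem main (hj : HjS) (lh : LhS) (h : S_SUP) (hb : S_BAD) (hl : S_LB) (hp : S_PER)
    (hi : S_ITER) (hu : S_UP) (N : WeierstrassCurve ℚ → ℝ) (hN : LikeConductor N) (k : ℕ) :
    FreyN N Set.univ ↔ FreyN N (Fam k) := by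
  constructor
  · intro hF ε hε
    obtain ⟨c, hc⟩ := hF ε hε
    exact ⟨c, fun E _ => hc E (Set.mem_univ _)⟩
  · intro hF
    have h1 := hu ℚ (iter hi k (down hj lh h hb hl hp N hN k hF))
    intro ε hε
    obtain ⟨c, hc⟩ := h1 ε hε
    refine ⟨c, fun E _ hE τ hτ => ?_⟩
    have h2 := hc E (Set.mem_univ _) hE τ hτ
    have hfin : (Module.finrank ℚ ℚ : ℝ) = 1 := by simp
    rw [hfin, one_mul] at h2
    refine h2.trans ?_
    have h3 := bad_ge hb hE
    have h4 : Real.log (badNorm E) ≤ Real.log (N E) := Real.log_le_log h3.1 (hN.1 E hE)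
    have h5 : (1 / 2 + ε) * Real.log (badNorm E) ≤ (1 / 2 + ε) * Real.log (N E) :=
      mul_le_mul_of_nonneg_left h4 (by positivity)
    linarith

end Pool.Agent.E8helper15.FT
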