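import Pool.Agent.E8helper15.FT.Stm

/-!
# Project FT, second part: curves with torsion subgroup `ℤ/2 × ℤ/8`: statements of the pieces
-/

set_option autoImplicit false

namespace Pool.Agent.E8helper15.FT

open NumberField IsDedekindDomain

/-- rational points of order `8` and of order `2` which generate a group `ℤ/2 × ℤ/8` -/
def BigTorsion (E : WeierstrassCurve ℚ) : Prop :=
  ∃ P T : E.toAffine.Point, addOrderOf P = 8 ∧ addOrderOf T = 2 ∧ T ∉ AddSubgroup.zmultiples P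

/-- TOR. The torsion. -/
def S_TOR : Prop := ∀ u v w : ℚ, u ≠ 0 → v ≠ 0 → u ^ 2 ≠ v ^ 2 → u ^ 2 + v ^ 2 = w ^ 2 →
  BigTorsion ⟨0, u ^ 4 + v ^ 4, 0, u ^ 4 * v ^ 4, 0⟩

/-- the Legendre parameters of the curves with torsion `ℤ/2 × ℤ/8` -/
def big {K : Type} [Field K] (t : K) : K := (2 * t / (1 - t ^ 2)) ^ 4

/-- ITER2. One step with the map `big`. -/
def S_ITER2 : Prop := ∀ (K : Type) [Field K] [NumberField K] (S : Set K),
  Abc {l | ∃ t ∈ S, t ^ 2 ≠ 1 ∧ l = big t} → Abc S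

end Pool.Agent.E8helper15.FT
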