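import Pool.Agent.E8helper15.FT.Stm2

/-!
# Project FT, third part: bad reduction at prescribed primes: statements of the pieces
-/

set_option autoImplicit false

namespace Pool.Agent.E8helper15.FT

open NumberField IsDedekindDomain
open Pool.Agent.TH876.FH (GoodAt)

/-- ITER3. One step with a power map. -/
def S_ITER3 : Prop := ∀ (K : Type) [Field K] [NumberField K] (S : Set K) (m : ℕ), 1 ≤ m →
  Abc {l | ∃ t ∈ S, l = t ^ m} → Abc S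

/-- LOC. The primes `p` such that `p - 1` divides `m`. -/
def S_LOC : Prop := ∀ (p m : ℕ) (s : ℚ) (u v : ℤ), p.Prime → p ≠ 2 → p - 1 ∣ m → 1 ≤ m →
  (s ^ m) ^ 2 ≠ 1 → v ≠ 0 → IsCoprime u v → (u : ℚ) / v = 2 * s ^ m / (1 - (s ^ m) ^ 2) →
    (p : ℤ) ∣ u * v

/-- BADP. Bad reduction. -/
def S_BADP : Prop := ∀ (p : ℕ) (u v : ℤ), p.Prime → p ≠ 2 → IsCoprime u v → (p : ℤ) ∣ u * v →
  (⟨0, (u : ℚ) ^ 4 + (v : ℚ) ^ 4, 0, (u : ℚ) ^ 4 * (v : ℚ) ^ 4, 0⟩ : WeierstrassCurve ℚ).Δ ≠ 0 →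
  ∀ w : HeightOneSpectrum (𝓞 ℚ), w.valuation ℚ (p : ℚ) < 1 →
    ¬ GoodAt w (⟨0, (u : ℚ) ^ 4 + (v : ℚ) ^ 4, 0, (u : ℚ) ^ 4 * (v : ℚ) ^ 4, 0⟩ :
      WeierstrassCurve ℚ)

end Pool.Agent.E8helper15.FT
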