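import Pool.Agent.E8helper15.FT.Sem
import Pool.Agent.E8helper15.FT.Stm3

/-! Project FT: the equivalence over `ℚ`, with the conductor, for curves with torsion `ℤ/2 × ℤ/8`. -/

set_option autoImplicit false

namespace Pool.Agent.E8helper15.FT

open NumberField IsDedekindDomain
open Pool.Agent.TH876.FH (faltings IsPeriod GoodAt badNorm HjS LhS)

/-- Frey's inequality in dimension one for the curves of the set `T`, with `N E` as the conductor -/
def FreyN (N : WeierstrassCurve ℚ → ℝ) (T : Set (WeierstrassCurve ℚ)) : Prop :=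
  ∀ ε : ℝ, 0 < ε → ∃ c : ℝ, ∀ E ∈ T, E.Δ ≠ 0 →
    ∀ τ : InfinitePlace ℚ → UpperHalfPlane, IsPeriod (E.c₄ ^ 3 / E.Δ) τ →
      faltings (E.c₄ ^ 3 / E.Δ) τ ≤ (1 / 2 + ε) * Real.log (N E) + c

/-- what we need of the conductor: it is at least the product of the bad primes, and at most a
constant times this product for the curves which are semistable outside `2` -/
def LikeConductor (N : WeierstrassCurve ℚ → ℝ) : Prop :=
  (∀ E : WeierstrassCurve ℚ, E.Δ ≠ 0 → badNorm E ≤ N E) ∧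
  ∃ C : ℝ, ∀ E : WeierstrassCurve ℚ, E.Δ ≠ 0 →
    (∀ v : HeightOneSpectrum (𝓞 ℚ), v.valuation ℚ (2 : ℚ) = 1 → SemistableAt v E) →
      N E ≤ C * badNorm E

/-- the values of the `k`-th iterate of `x ↦ 4 x (1 - x)` at the rational numbers -/
def Par (k : ℕ) : Set ℚ := Set.range (logi^[k] : ℚ → ℚ)

/-- the curves `y² = x (x + u⁴) (x + v⁴)`, `u` and `v` coprime integers with
`u / v = 2 t / (1 - t²)`, `t = s ^ m` for a number `s` of `Par k` -/
def Fam (k m : ℕ) : Set (WeierstrassCurve ℚ) :=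
  {E | ∃ (s : ℚ) (u v : ℤ), s ∈ Par k ∧ (s ^ m) ^ 2 ≠ 1 ∧ v ≠ 0 ∧ IsCoprime u v ∧
    (u : ℚ) / v = 2 * s ^ m / (1 - (s ^ m) ^ 2) ∧
    E = ⟨0, (u : ℚ) ^ 4 + (v : ℚ) ^ 4, 0, (u : ℚ) ^ 4 * (v : ℚ) ^ 4, 0⟩}

lemma crv_fam (u v : ℤ) : (⟨0, (u : ℚ) ^ 4 + (v : ℚ) ^ 4, 0, (u : ℚ) ^ 4 * (v : ℚ) ^ 4, 0⟩ :
    WeierstrassCurve ℚ) = crv (-u ^ 4) (-v ^ 4) := by
  ext
  · rfl
  · simp only [crv]; push_cast; ring
  · rfl
  · simp only [crv]; push_cast; ring
  · rfl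

lemma log_norm_nonneg {K : Type} [Field K] [NumberField K] (v : HeightOneSpectrum (𝓞 K)) :
    0 ≤ Real.log (Ideal.absNorm v.asIdeal : ℝ) :=
  Real.log_natCast_nonneg _

lemma norm_pos {K : Type} [Field K] [NumberField K] (v : HeightOneSpectrum (𝓞 K)) :
    (Ideal.absNorm v.asIdeal : ℝ) ≠ 0 := by
  have h : Ideal.absNorm v.asIdeal ≠ 0 := by
    rw [Ne, Ideal.absNorm_eq_zero_iff]
    exact v.ne_bot
  exact_mod_cast h

lemma supp_finite (h : S_SUP) {K : Type} [Field K] [NumberField K] (l : K) (h0 : l ≠ 0)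
    (h1 : l ≠ 1) : (Supp l).Finite := by
  have e1 := (h K l h0).1
  have e2 := (h K (1 - l) (sub_ne_zero.2 (Ne.symm h1))).1
  exact (e1.union e2).subset (fun v hv => hv)

lemma log_lrad {K : Type} [Field K] [NumberField K] (l : K) (hf : (Supp l).Finite) :
    Real.log (lrad l) = ∑ v ∈ hf.toFinset, Real.log (Ideal.absNorm v.asIdeal : ℝ) := by
  unfold lrad
  rw [finprod_mem_eq_finite_toFinset_prod _ hf, Real.log_prod]
  intro v _
  exact norm_pos v

/-- the bad primes of the semistable model -/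
lemma bad_crv (h : S_SUP) (hb : S_BAD) : ∃ c₀ : ℝ, ∀ a c : ℤ, IsCoprime a c → a ≠ 0 → c ≠ 0 →
    a ≠ c → (crv a c).Δ ≠ 0 ∧
      Real.log (badNorm (crv a c)) ≤ Real.log (lrad ((a : ℚ) / c)) + c₀ := by
  classical
  have h2 : {v : HeightOneSpectrum (𝓞 ℚ) | v.valuation ℚ (2 : ℚ) ≠ 1}.Finite :=
    (h ℚ 2 (by norm_num)).1
  refine ⟨∑ v ∈ h2.toFinset, Real.log (Ideal.absNorm v.asIdeal : ℝ), ?_⟩
  intro a c hac ha hc hne
  have ha' : (a : ℚ) ≠ 0 := by exact_mod_cast ha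
  have hc' : (c : ℚ) ≠ 0 := by exact_mod_cast hc
  have hca : (c : ℚ) - a ≠ 0 := by
    intro e
    apply hne
    have : (c : ℚ) = a := by linarith
    exact_mod_cast this.symm
  have hΔ : (crv a c).Δ ≠ 0 := by
    rw [crv_delta]
    positivity
  refine ⟨hΔ, ?_⟩
  have l0 : (a : ℚ) / c ≠ 0 := div_ne_zero ha' hc'
  have l1 : (a : ℚ) / c ≠ 1 := by
    intro e
    rw [div_eq_one_iff_eq hc'] at e
    exact hne (by exact_mod_cast e)
  obtain ⟨B, hB, hlog, -⟩ := hb ℚ (crv a c) hΔ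
  have hf := supp_finite h ((a : ℚ) / c) l0 l1
  rw [hlog, log_lrad _ hf]
  have hsub : B ⊆ hf.toFinset ∪ h2.toFinset := by
    intro v hv
    rw [Finset.mem_union, Set.Finite.mem_toFinset, Set.Finite.mem_toFinset]
    by_contra hcon
    push Not at hcon
    obtain ⟨g1, g2⟩ := hcon
    refine (hB v).1 hv (good a c hac hc v ?_ g1)
    by_contra g3
    exact g2 g3
  calc ∑ v ∈ B, Real.log (Ideal.absNorm v.asIdeal : ℝ)
      ≤ ∑ v ∈ hf.toFinset ∪ h2.toFinset, Real.log (Ideal.absNorm v.asIdeal : ℝ) :=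
        Finset.sum_le_sum_of_subset_of_nonneg hsub fun v _ _ => log_norm_nonneg v
    _ ≤ ∑ v ∈ hf.toFinset, Real.log (Ideal.absNorm v.asIdeal : ℝ) +
        ∑ v ∈ h2.toFinset, Real.log (Ideal.absNorm v.asIdeal : ℝ) := by
        have e := Finset.sum_union_inter (s₁ := hf.toFinset) (s₂ := h2.toFinset)
          (f := fun v => Real.log (Ideal.absNorm v.asIdeal : ℝ))
        have e2 : 0 ≤ ∑ v ∈ hf.toFinset ∩ h2.toFinset, Real.log (Ideal.absNorm v.asIdeal : ℝ) :=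
          Finset.sum_nonneg fun v _ => log_norm_nonneg v
        linarith

/-- the product of the bad primes is at least one -/
lemma bad_ge (hb : S_BAD) {E : WeierstrassCurve ℚ} (hE : E.Δ ≠ 0) :
    0 < badNorm E ∧ 0 ≤ Real.log (badNorm E) := by
  obtain ⟨B, hB, -, h0⟩ := hb ℚ E hE
  refine ⟨?_, h0⟩
  unfold badNorm
  have hfin : {v : HeightOneSpectrum (𝓞 ℚ) | ¬ GoodAt v E}.Finite :=
    B.finite_toSet.subset fun v hv => (hB v).2 hv
  rw [finprod_mem_eq_finite_toFinset_prod _ hfin]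
  refine Finset.prod_pos fun v _ => ?_
  exact lt_of_le_of_ne (Nat.cast_nonneg _) (norm_pos v).symm

/-- from Frey's inequality for the family to abc for the parameters -/
lemma down (hj : HjS) (lh : LhS) (h : S_SUP) (hb : S_BAD) (hl : S_LB) (hp : S_PER)
    (N : WeierstrassCurve ℚ → ℝ) (hN : LikeConductor N) (S : Set ℚ)
    (T : Set (WeierstrassCurve ℚ)) (hST : ∀ l ∈ S, l ≠ 0 → l ≠ 1 → ∃ a c : ℤ, IsCoprime a c ∧
      c ≠ 0 ∧ (a : ℚ) / c = l ∧ crv a c ∈ T) (hF : FreyN N T) : Abc S := by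
  obtain ⟨hN1, C, hN2⟩ := hN
  obtain ⟨c0, hc0⟩ := bad_crv h hb
  obtain ⟨c1, hc1⟩ := lh ℚ
  obtain ⟨c5, hc5⟩ := hl ℚ
  intro ε hε
  set t : ℝ := min 1 (ε / 5) with ht
  have ht0 : 0 < t := lt_min one_pos (by positivity)
  have ht1 : t ≤ 1 := min_le_left _ _
  have ht2 : t ≤ ε / 5 := min_le_right _ _
  obtain ⟨c2, hc2⟩ := (hj ℚ).1 t ht0
  obtain ⟨c3, hc3⟩ := hF t ht0
  set D : ℝ := Real.log (max C 1) with hD
  refine ⟨((1 + t) * (12 * ((1 / 2 + t) * (D + c0) + c3)) + c2 + c1) / 6, ?_⟩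
  intro l hlS hl0 hl1
  obtain ⟨a, c, hcop, hc0', hdiv, hmem⟩ := hST l hlS hl0 hl1
  have hden : (c : ℚ) ≠ 0 := by exact_mod_cast hc0'
  have ha0 : a ≠ 0 := by
    rintro rfl
    apply hl0
    rw [← hdiv]
    simp
  have hac : a ≠ c := by
    intro e
    apply hl1
    rw [← hdiv, e]
    exact div_self hden
  obtain ⟨hΔ, hbad⟩ := hc0 a c hcop ha0 hc0' hac
  have hj1 := crv_j a c ha0 hc0' hac
  rw [hdiv] at hj1 hbad
  obtain ⟨-, hrel, -, hlr⟩ := hc5 l hl0 hl1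
  have e1 := hc1 _ l hl0 hl1 hrel
  rw [← hj1] at e1
  obtain ⟨τ, hτ⟩ := hp ℚ ((crv a c).c₄ ^ 3 / (crv a c).Δ)
  have e2 := hc2 _ τ hτ
  have hfin : (Module.finrank ℚ ℚ : ℝ) = 1 := by simp
  rw [hfin, mul_one] at e2
  have e3 := hc3 (crv a c) hmem hΔ τ hτ
  obtain ⟨hb0, hb1⟩ := bad_ge hb hΔ
  have e4 : Real.log (N (crv a c)) ≤ D + Real.log (badNorm (crv a c)) := by
    have g1 := hN1 _ hΔ
    have g2 : N (crv a c) ≤ max C 1 * badNorm (crv a c) :=
      (hN2 _ hΔ (fun v hv => semi a c hcop v hv)).trans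
        (mul_le_mul_of_nonneg_right (le_max_left _ _) hb0.le)
    rw [hD, ← Real.log_mul (by positivity) hb0.ne']
    exact Real.log_le_log (by linarith) g2
  have e5 : faltings ((crv a c).c₄ ^ 3 / (crv a c).Δ) τ ≤
      (1 / 2 + t) * (D + (Real.log (lrad l) + c0)) + c3 := by
    refine e3.trans ?_
    have : (1 / 2 + t) * Real.log (N (crv a c)) ≤
        (1 / 2 + t) * (D + (Real.log (lrad l) + c0)) :=
      mul_le_mul_of_nonneg_left (by linarith) (by positivity)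
    linarith
  have e6 : 6 * Height.logHeight₁ l ≤ (1 + t) * (12 * ((1 / 2 + t) *
      (D + (Real.log (lrad l) + c0)) + c3)) + c2 + c1 := by
    have : (1 + t) * (12 * faltings ((crv a c).c₄ ^ 3 / (crv a c).Δ) τ) ≤
        (1 + t) * (12 * ((1 / 2 + t) * (D + (Real.log (lrad l) + c0)) + c3)) :=
      mul_le_mul_of_nonneg_left (mul_le_mul_of_nonneg_left e5 (by norm_num)) (by positivity)
    linarith
  have e7 : (1 + t) * (1 + 2 * t) * Real.log (lrad l) ≤ (1 + ε) * Real.log (lrad l) := by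
    refine mul_le_mul_of_nonneg_right ?_ hlr
    nlinarith
  have e8 : (1 + t) * (12 * ((1 / 2 + t) * (D + (Real.log (lrad l) + c0)) + c3)) =
      6 * ((1 + t) * (1 + 2 * t) * Real.log (lrad l)) +
        (1 + t) * (12 * ((1 / 2 + t) * (D + c0) + c3)) := by ring
  rw [e8] at e6
  have e9 : Height.logHeight₁ l ≤ (1 + t) * (1 + 2 * t) * Real.log (lrad l) +
      ((1 + t) * (12 * ((1 / 2 + t) * (D + c0) + c3)) + c2 + c1) / 6 := by linarith
  linarith

/-- iterating -/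
lemma iter (hi : S_ITER) (k : ℕ) : Abc (Par k) → Abc (Set.univ : Set ℚ) := by
  induction k with
  | zero =>
    intro h
    have : Par 0 = Set.univ := by simp [Par]
    rwa [this] at h
  | succ k ih =>
    intro h
    apply ih
    apply hi ℚ (Par k)
    have : logi '' (Par k) = Par (k + 1) := by
      unfold Par
      rw [Function.iterate_succ', Set.range_comp]
    rw [this]
    exact h

/-- members of the family -/
lemma fam_mem (k m : ℕ) (l : ℚ)
    (hl : l ∈ {l : ℚ | ∃ t ∈ {t : ℚ | ∃ s ∈ Par k, t = s ^ m}, t ^ 2 ≠ 1 ∧ l = big t}) :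
    ∃ a c : ℤ, IsCoprime a c ∧ c ≠ 0 ∧ (a : ℚ) / c = l ∧ crv a c ∈ Fam k m := by
  obtain ⟨t, ⟨s, hs, rfl⟩, ht1, rfl⟩ := hl
  set r : ℚ := 2 * s ^ m / (1 - (s ^ m) ^ 2) with hr
  have hcop : IsCoprime r.num (r.den : ℤ) := by
    rw [Int.isCoprime_iff_gcd_eq_one]
    have := r.reduced
    simpa [Int.gcd] using this
  have hd : (r.den : ℤ) ≠ 0 := by exact_mod_cast r.den_ne_zero
  have hdiv : ((r.num : ℤ) : ℚ) / ((r.den : ℤ) : ℚ) = r := by
    push_cast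
    exact Rat.num_div_den r
  refine ⟨-r.num ^ 4, -(r.den : ℤ) ^ 4, ?_, ?_, ?_, ?_⟩
  · exact (hcop.pow).neg_neg
  · exact neg_ne_zero.2 (pow_ne_zero 4 hd)
  · unfold big
    rw [← hr, Int.cast_neg, Int.cast_neg, neg_div_neg_eq, Int.cast_pow, Int.cast_pow, ← div_pow,
      hdiv]
  · exact ⟨s, r.num, r.den, hs, ht1, hd, hcop, hdiv, (crv_fam _ _).symm⟩

/-- the torsion and the bad primes of the members of the family -/
lemma fam_tor (ht : S_TOR) (hloc : S_LOC) (hbp : S_BADP) (k m : ℕ) (hm : 1 ≤ m)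
    (E : WeierstrassCurve ℚ) (hE : E ∈ Fam k m) (hΔ : E.Δ ≠ 0) :
    BigTorsion E ∧ ∀ p : ℕ, p.Prime → p ≠ 2 → p - 1 ∣ m →
      ∀ w : HeightOneSpectrum (𝓞 ℚ), w.valuation ℚ (p : ℚ) < 1 → ¬ GoodAt w E := by
  obtain ⟨s, u, v, -, ht1, hv, hcop, huv, rfl⟩ := hE
  have hΔ' := hΔ
  have hv' : (v : ℚ) ≠ 0 := by exact_mod_cast hv
  have hΔ2 : (u : ℚ) ≠ 0 ∧ (u : ℚ) ^ 2 ≠ (v : ℚ) ^ 2 := by
    rw [crv_fam, crv_delta] at hΔ
    constructor
    · intro h
      apply hΔ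
      push_cast
      rw [h]
      ring
    · intro h
      apply hΔ
      push_cast
      have : (u : ℚ) ^ 4 = (v : ℚ) ^ 4 := by
        calc (u : ℚ) ^ 4 = ((u : ℚ) ^ 2) ^ 2 := by ring
          _ = ((v : ℚ) ^ 2) ^ 2 := by rw [h]
          _ = (v : ℚ) ^ 4 := by ring
      rw [this]
      ring
  have h1 : (1 : ℚ) - (s ^ m) ^ 2 ≠ 0 := sub_ne_zero.2 (Ne.symm ht1)
  refine ⟨ht u v (v * (1 + (s ^ m) ^ 2) / (1 - (s ^ m) ^ 2)) hΔ2.1 hv' hΔ2.2 ?_, ?_⟩
  · have hu : (u : ℚ) = v * (2 * s ^ m / (1 - (s ^ m) ^ 2)) := by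
      rw [← huv]
      field_simp
    rw [hu]
    field_simp
    ring
  · intro p hp hp2 hpm w hw
    exact hbp p u v hp hp2 hcop (hloc p m s u v hp hp2 hpm hm ht1 hv hcop huv) hΔ' w hw

/-- coprime representations of a fraction -/
lemma frac_pow (u v : ℤ) (hv : v ≠ 0) (h : IsCoprime u v) :
    (((u : ℚ) / v).num : ℚ) ^ 4 = (u : ℚ) ^ 4 ∧ (((u : ℚ) / v).den : ℚ) ^ 4 = (v : ℚ) ^ 4 := by
  have key : ∀ a b : ℤ, 0 < b → IsCoprime a b →
      (((a : ℚ) / b).num = a ∧ (((a : ℚ) / b).den : ℤ) = b) := by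
    intro a b hb hab
    have hg : Nat.Coprime a.natAbs b.natAbs := by
      rw [Nat.coprime_iff_gcd_eq_one]
      exact Int.isCoprime_iff_gcd_eq_one.1 hab
    exact ⟨Rat.num_div_eq_of_coprime hb hg, Rat.den_div_eq_of_coprime hb hg⟩
  rcases lt_or_gt_of_ne hv with h1 | h1
  · obtain ⟨e1, e2⟩ := key (-u) (-v) (by omega) h.neg_neg
    have e3 : (u : ℚ) / v = ((-u : ℤ) : ℚ) / ((-v : ℤ) : ℚ) := by
      push_cast
      rw [neg_div_neg_eq]
    rw [e3]
    have e2' : ((((-u : ℤ) : ℚ) / ((-v : ℤ) : ℚ)).den : ℚ) = ((-v : ℤ) : ℚ) := by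
      exact_mod_cast e2
    rw [e1, e2']
    push_cast
    constructor <;> ring
  · obtain ⟨e1, e2⟩ := key u v h1 h
    have e2' : ((((u : ℤ) : ℚ) / ((v : ℤ) : ℚ)).den : ℚ) = ((v : ℤ) : ℚ) := by
      exact_mod_cast e2
    rw [e1, e2']
    exact ⟨rfl, rfl⟩

/-- the number of members of the family -/
lemma fam_count (hcnt : S_CNT) (hbig : ∃ c : ℝ, ∀ t : ℚ, t ^ 2 ≠ 1 →
    8 * Height.logHeight₁ t ≤ Height.logHeight₁ (big t) + c) (k m : ℕ) (hm : 1 ≤ m) :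
    ∃ C : ℝ, ∀ X : ℝ, 1 ≤ X → {E ∈ Fam k m | (E.a₂ : ℝ) ≤ X}.Finite ∧
      ({E ∈ Fam k m | (E.a₂ : ℝ) ≤ X}.ncard : ℝ) ≤ C * X ^ ((1 : ℝ) / (4 * m * 2 ^ k)) := by
  obtain ⟨C, hC⟩ := hcnt k
  obtain ⟨c, hc⟩ := hbig
  have hm0 : (0 : ℝ) < m := by exact_mod_cast hm
  set c' : ℝ := max c 0 with hc'
  have hc0 : 0 ≤ c' := le_max_right _ _
  set A : ℝ := Real.exp (c' / (8 * m)) with hA
  have hA1 : 1 ≤ A := Real.one_le_exp (by positivity)
  refine ⟨max C 0 * A ^ ((2 : ℝ) / 2 ^ k), fun X hX => ?_⟩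
  have hX0 : 0 < X := by linarith
  set Y : ℝ := A * X ^ ((1 : ℝ) / (8 * m)) with hY
  have hY1 : 1 ≤ Y := by
    have : 1 ≤ X ^ ((1 : ℝ) / (8 * m)) := Real.one_le_rpow hX (by positivity)
    calc (1 : ℝ) = 1 * 1 := (one_mul _).symm
      _ ≤ A * X ^ ((1 : ℝ) / (8 * m)) := mul_le_mul hA1 this zero_le_one (by positivity)
  obtain ⟨hfin, hcard⟩ := hC Y hY1
  set D : Set ℚ := {l : ℚ | l ∈ Set.range (logi^[k] : ℚ → ℚ) ∧
    max |(l.num : ℝ)| (l.den : ℝ) ≤ Y} with hD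
  set g : ℚ → WeierstrassCurve ℚ := fun s =>
    ⟨0, ((2 * s ^ m / (1 - (s ^ m) ^ 2)).num : ℚ) ^ 4 +
      ((2 * s ^ m / (1 - (s ^ m) ^ 2)).den : ℚ) ^ 4, 0,
      ((2 * s ^ m / (1 - (s ^ m) ^ 2)).num : ℚ) ^ 4 *
      ((2 * s ^ m / (1 - (s ^ m) ^ 2)).den : ℚ) ^ 4, 0⟩ with hg
  have hsub : {E ∈ Fam k m | (E.a₂ : ℝ) ≤ X} ⊆ g '' D := by
    rintro E ⟨⟨s, u, v, hs, ht1, hv, hcop, huv, rfl⟩, hE⟩
    obtain ⟨f1, f2⟩ := frac_pow u v hv hcop
    rw [huv] at f1 f2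
    refine ⟨s, ⟨hs, ?_⟩, ?_⟩
    · set r : ℚ := 2 * s ^ m / (1 - (s ^ m) ^ 2) with hr
      have e1 := hc (s ^ m) ht1
      have e2 : big (s ^ m) = r ^ 4 := rfl
      rw [e2, Height.logHeight₁_pow, Height.logHeight₁_pow] at e1
      have hr1 : Height.logHeight₁ r = Real.log (max |(r.num : ℝ)| (r.den : ℝ)) := by
        rw [Rat.logHeight₁_eq_log_max]
        congr 1
        push_cast
        rw [Nat.cast_natAbs, Int.cast_abs]
      have hs1 : Height.logHeight₁ s = Real.log (max |(s.num : ℝ)| (s.den : ℝ)) := by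
        rw [Rat.logHeight₁_eq_log_max]
        congr 1
        push_cast
        rw [Nat.cast_natAbs, Int.cast_abs]
      have hden : (0 : ℝ) < r.den := by exact_mod_cast r.den_pos
      have hdens : (0 : ℝ) < s.den := by exact_mod_cast s.den_pos
      have e3 : (max |(r.num : ℝ)| (r.den : ℝ)) ^ 4 ≤ X := by
        have g1 : (u : ℝ) ^ 4 + (v : ℝ) ^ 4 ≤ X := by
          have : (((u : ℚ) ^ 4 + (v : ℚ) ^ 4 : ℚ) : ℝ) ≤ X := hE
          push_cast at this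
          exact this
        have g2 : (r.num : ℝ) ^ 4 = (u : ℝ) ^ 4 := by exact_mod_cast f1
        have g3 : (r.den : ℝ) ^ 4 = (v : ℝ) ^ 4 := by exact_mod_cast f2
        have g4 : 0 ≤ (u : ℝ) ^ 4 := by positivity
        have g5 : 0 ≤ (v : ℝ) ^ 4 := by positivity
        rcases max_choice |(r.num : ℝ)| (r.den : ℝ) with h | h
        · rw [h]
          have : |(r.num : ℝ)| ^ 4 = (r.num : ℝ) ^ 4 := by
            rw [← abs_pow, abs_of_nonneg (by positivity)]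
          rw [this, g2]
          linarith
        · rw [h, g3]
          linarith
      have hmax : 0 < max |(r.num : ℝ)| (r.den : ℝ) := lt_of_lt_of_le hden (le_max_right _ _)
      have hmaxs : 0 < max |(s.num : ℝ)| (s.den : ℝ) := lt_of_lt_of_le hdens (le_max_right _ _)
      have e4 : 4 * Height.logHeight₁ r ≤ Real.log X := by
        rw [hr1]
        have := Real.log_le_log (by positivity) e3
        rwa [Real.log_pow] at this
      have e5 : 8 * (m * Height.logHeight₁ s) ≤ Real.log X + c' := by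
        have : c ≤ c' := le_max_left _ _
        push_cast at e1
        linarith
      have e6 : Height.logHeight₁ s ≤ Real.log Y := by
        rw [hY, Real.log_mul (by positivity) (by positivity), hA, Real.log_exp,
          Real.log_rpow hX0]
        have e7 : c' / (8 * m) + 1 / (8 * m) * Real.log X = (Real.log X + c') / (8 * m) := by
          ring
        rw [e7, le_div_iff₀ (by positivity)]
        linarith
      rw [hs1] at e6
      exact (Real.log_le_log_iff hmaxs (by linarith)).1 e6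
    · simp only [hg]
      rw [f1, f2]
  refine ⟨(hfin.image g).subset hsub, ?_⟩
  have h1 : ({E ∈ Fam k m | (E.a₂ : ℝ) ≤ X}.ncard : ℝ) ≤ (D.ncard : ℝ) := by
    have := (Set.ncard_le_ncard hsub (hfin.image g)).trans (Set.ncard_image_le hfin)
    exact_mod_cast this
  refine h1.trans (hcard.trans ?_)
  have h2 : Y ^ ((2 : ℝ) / 2 ^ k) =
      A ^ ((2 : ℝ) / 2 ^ k) * X ^ ((1 : ℝ) / (4 * m * 2 ^ k)) := by
    rw [hY, Real.mul_rpow (by positivity) (by positivity), ← Real.rpow_mul hX0.le]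
    congr 2
    field_simp
    norm_num
  rw [h2]
  have h3 : 0 ≤ A ^ ((2 : ℝ) / 2 ^ k) * X ^ ((1 : ℝ) / (4 * m * 2 ^ k)) := by positivity
  calc C * (A ^ ((2 : ℝ) / 2 ^ k) * X ^ ((1 : ℝ) / (4 * m * 2 ^ k)))
      ≤ max C 0 * (A ^ ((2 : ℝ) / 2 ^ k) * X ^ ((1 : ℝ) / (4 * m * 2 ^ k))) :=
        mul_le_mul_of_nonneg_right (le_max_left C 0) h3
    _ = max C 0 * A ^ ((2 : ℝ) / 2 ^ k) * X ^ ((1 : ℝ) / (4 * m * 2 ^ k)) := by ring

/-- the equivalence -/
theorem main (hj : HjS) (lh : LhS) (h : S_SUP) (hb : S_BAD) (hl : S_LB) (hp : S_PER)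
    (hi : S_ITER) (hi2 : S_ITER2) (hi3 : S_ITER3) (hu : S_UP) (N : WeierstrassCurve ℚ → ℝ)
    (hN : LikeConductor N) (k m : ℕ) (hm : 1 ≤ m) :
    FreyN N Set.univ ↔ FreyN N (Fam k m) := by
  constructor
  · intro hF ε hε
    obtain ⟨c, hc⟩ := hF ε hε
    exact ⟨c, fun E _ => hc E (Set.mem_univ _)⟩
  · intro hF
    have h1 := hu ℚ (iter hi k (hi3 ℚ (Par k) m hm (hi2 ℚ {t : ℚ | ∃ s ∈ Par k, t = s ^ m}
      (down hj lh h hb hl hp N hN _ (Fam k m) (fun l hl _ _ => fam_mem k m l hl) hF))))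
    intro ε hε
    obtain ⟨c, hc⟩ := h1 ε hε
    refine ⟨c, fun E _ hE τ hτ => ?_⟩
    have h2 := hc E (Set.mem_univ _) hE τ hτ
    have hfin : (Module.finrank ℚ ℚ : ℝ) = 1 := by simp
    rw [hfin, one_mul] at h2
    refine h2.trans ?_
    have h3 := bad_ge hb hE
    have h4 : Real.log (badNorm E) ≤ Real.log (N E) := Real.log_le_log h3.1 (hN.1 E hE)
    have h5 : (1 / 2 + ε) * Real.log (badNorm E) ≤ (1 / 2 + ε) * Real.log (N E) :=
      mul_le_mul_of_nonneg_left h4 (by positivity)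
    linarith

end Pool.Agent.E8helper15.FT
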