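import Pool.Agent.E8helper15.FT.Stm

/-! Project FT: the semistable model over `ℚ` of the Legendre curve. -/

set_option autoImplicit false

namespace Pool.Agent.E8helper15.FT

open NumberField IsDedekindDomain
open Pool.Agent.TH876.FH (faltings IsPeriod GoodAt badNorm HjS LhS)

/-- semistable reduction at `v` -/
def SemistableAt (v : HeightOneSpectrum (𝓞 ℚ)) (E : WeierstrassCurve ℚ) : Prop :=
  ∃ C : WeierstrassCurve.VariableChange ℚ,
    v.valuation ℚ (C • E).a₁ ≤ 1 ∧ v.valuation ℚ (C • E).a₂ ≤ 1 ∧ v.valuation ℚ (C • E).a₃ ≤ 1 ∧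
    v.valuation ℚ (C • E).a₄ ≤ 1 ∧ v.valuation ℚ (C • E).a₆ ≤ 1 ∧
    (v.valuation ℚ (C • E).Δ = 1 ∨ v.valuation ℚ (C • E).c₄ = 1)

/-- the curve `y² = x (x - a) (x - c)` -/
def crv (a c : ℤ) : WeierstrassCurve ℚ := ⟨0, -((a : ℚ) + c), 0, (a : ℚ) * c, 0⟩

lemma crv_delta (a c : ℤ) : (crv a c).Δ = 16 * (a : ℚ) ^ 2 * (c : ℚ) ^ 2 * ((c : ℚ) - a) ^ 2 := by
  simp only [crv, WeierstrassCurve.Δ, WeierstrassCurve.b₂, WeierstrassCurve.b₄,
    WeierstrassCurve.b₆, WeierstrassCurve.b₈]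
  ring

lemma crv_c4 (a c : ℤ) : (crv a c).c₄ = 16 * ((a : ℚ) ^ 2 - a * c + (c : ℚ) ^ 2) := by
  simp only [crv, WeierstrassCurve.c₄, WeierstrassCurve.b₂, WeierstrassCurve.b₄]
  ring

lemma leg_delta {K : Type} [Field K] (l : K) : (leg l).Δ = 16 * l ^ 2 * (1 - l) ^ 2 := by
  simp only [leg, WeierstrassCurve.Δ, WeierstrassCurve.b₂, WeierstrassCurve.b₄,
    WeierstrassCurve.b₆, WeierstrassCurve.b₈]
  ring

lemma leg_c4 {K : Type} [Field K] (l : K) : (leg l).c₄ = 16 * (l ^ 2 - l + 1) := by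
  simp only [leg, WeierstrassCurve.c₄, WeierstrassCurve.b₂, WeierstrassCurve.b₄]
  ring

lemma crv_j (a c : ℤ) (ha : a ≠ 0) (hc : c ≠ 0) (hac : a ≠ c) :
    (crv a c).c₄ ^ 3 / (crv a c).Δ =
      (leg ((a : ℚ) / c)).c₄ ^ 3 / (leg ((a : ℚ) / c)).Δ := by
  have h1 : (a : ℚ) ≠ 0 := by exact_mod_cast ha
  have h2 : (c : ℚ) ≠ 0 := by exact_mod_cast hc
  have h3 : (c : ℚ) - a ≠ 0 := by
    intro h
    apply hac
    have : (c : ℚ) = a := by linarith
    exact_mod_cast this.symm
  have h4 : (1 : ℚ) - (a : ℚ) / c ≠ 0 := by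
    have : (1 : ℚ) - (a : ℚ) / c = ((c : ℚ) - a) / c := by field_simp
    rw [this]
    exact div_ne_zero h3 h2
  have h5 : (a : ℚ) / c ≠ 0 := div_ne_zero h1 h2
  rw [crv_delta, crv_c4, leg_delta, leg_c4, div_eq_div_iff]
  · field_simp
  · positivity
  · positivity

lemma val_int_le (v : HeightOneSpectrum (𝓞 ℚ)) (m : ℤ) : v.valuation ℚ (m : ℚ) ≤ 1 := by
  have h := v.valuation_le_one (K := ℚ) (m : 𝓞 ℚ)
  simpa using h

lemma val_two_four (v : HeightOneSpectrum (𝓞 ℚ)) (h : v.valuation ℚ (2 : ℚ) = 1) :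
    v.valuation ℚ (16 : ℚ) = 1 := by
  rw [show (16 : ℚ) = 2 ^ 4 by norm_num, map_pow, h, one_pow]

/-- units among coprime integers -/
lemma val_cop (v : HeightOneSpectrum (𝓞 ℚ)) (a c : ℤ) (h : IsCoprime a c) :
    v.valuation ℚ (a : ℚ) = 1 ∨ v.valuation ℚ (c : ℚ) = 1 := by
  by_contra hcon
  push Not at hcon
  obtain ⟨h1, h2⟩ := hcon
  have h1' := lt_of_le_of_ne (val_int_le v a) h1
  have h2' := lt_of_le_of_ne (val_int_le v c) h2
  obtain ⟨x, y, hxy⟩ := h
  have e : (x : ℚ) * a + y * c = 1 := by exact_mod_cast hxy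
  have h3 : v.valuation ℚ ((x : ℚ) * a + y * c) < 1 := by
    refine lt_of_le_of_lt (Valuation.map_add _ _ _) (max_lt ?_ ?_)
    · rw [map_mul]
      exact lt_of_le_of_lt (mul_le_of_le_one_left' (val_int_le v x)) h1'
    · rw [map_mul]
      exact lt_of_le_of_lt (mul_le_of_le_one_left' (val_int_le v y)) h2'
  rw [e, map_one] at h3
  exact lt_irrefl _ h3

lemma semi (a c : ℤ) (h : IsCoprime a c) (v : HeightOneSpectrum (𝓞 ℚ))
    (h2 : v.valuation ℚ (2 : ℚ) = 1) : SemistableAt v (crv a c) := by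
  refine ⟨1, ?_⟩
  rw [one_smul]
  refine ⟨by simp [crv], ?_, by simp [crv], ?_, by simp [crv], ?_⟩
  · have := val_int_le v (-(a + c))
    simpa [crv] using this
  · have := val_int_le v (a * c)
    simpa [crv] using this
  · rw [crv_delta, crv_c4]
    have ha := val_int_le v a
    have hc := val_int_le v c
    have hac := val_int_le v (c - a)
    by_cases e1 : v.valuation ℚ (a : ℚ) = 1
    · by_cases e2 : v.valuation ℚ (c : ℚ) = 1
      · by_cases e3 : v.valuation ℚ ((c : ℚ) - a) = 1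
        · left
          rw [map_mul, map_mul, map_mul, map_pow, map_pow, map_pow, e1, e2, e3, val_two_four v h2]
          simp
        · right
          have e3' : v.valuation ℚ ((c : ℚ) - a) < 1 := lt_of_le_of_ne (by simpa using hac) e3
          have e4 : v.valuation ℚ ((a : ℚ) ^ 2 - a * c + (c : ℚ) ^ 2) = 1 := by
            rw [show (a : ℚ) ^ 2 - a * c + (c : ℚ) ^ 2 = ((c : ℚ) - a) * c + a ^ 2 by ring]
            rw [Valuation.map_add_eq_of_lt_right]
            · rw [map_pow, e1, one_pow]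
            · rw [map_mul, map_pow, e1, e2, one_pow, mul_one]
              exact e3'
          rw [map_mul, e4, val_two_four v h2, one_mul]
      · right
        have e2' := lt_of_le_of_ne hc e2
        have e4 : v.valuation ℚ ((a : ℚ) ^ 2 - a * c + (c : ℚ) ^ 2) = 1 := by
          rw [show (a : ℚ) ^ 2 - a * c + (c : ℚ) ^ 2 = ((c : ℚ) - a) * c + a ^ 2 by ring]
          rw [Valuation.map_add_eq_of_lt_right]
          · rw [map_pow, e1, one_pow]
          · rw [map_mul, map_pow, e1, one_pow]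
            exact lt_of_le_of_lt (mul_le_of_le_one_left' (by simpa using hac)) e2'
        rw [map_mul, e4, val_two_four v h2, one_mul]
    · have e1' := lt_of_le_of_ne ha e1
      have e2 : v.valuation ℚ (c : ℚ) = 1 := (val_cop v a c h).resolve_left e1
      right
      have e4 : v.valuation ℚ ((a : ℚ) ^ 2 - a * c + (c : ℚ) ^ 2) = 1 := by
        rw [show (a : ℚ) ^ 2 - a * c + (c : ℚ) ^ 2 = ((a : ℚ) - c) * a + c ^ 2 by ring]
        rw [Valuation.map_add_eq_of_lt_right]
        · rw [map_pow, e2, one_pow]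
        · rw [map_mul, map_pow, e2, one_pow]
          have := val_int_le v (a - c)
          exact lt_of_le_of_lt (mul_le_of_le_one_left' (by simpa using this)) e1'
      rw [map_mul, e4, val_two_four v h2, one_mul]

lemma good (a c : ℤ) (h : IsCoprime a c) (hc0 : c ≠ 0) (v : HeightOneSpectrum (𝓞 ℚ))
    (h2 : v.valuation ℚ (2 : ℚ) = 1) (hs : v ∉ Supp ((a : ℚ) / c)) : GoodAt v (crv a c) := by
  have hc0' : (c : ℚ) ≠ 0 := by exact_mod_cast hc0
  simp only [Supp, Set.mem_setOf_eq, not_or, not_not] at hs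
  obtain ⟨s1, s2⟩ := hs
  have e1 : v.valuation ℚ (a : ℚ) = v.valuation ℚ (c : ℚ) := by
    have : (a : ℚ) = (a : ℚ) / c * c := by field_simp
    rw [this, map_mul, s1, one_mul]
  have e2 : v.valuation ℚ (c : ℚ) = 1 := by
    rcases val_cop v a c h with h' | h'
    · rw [← e1, h']
    · exact h'
  have e3 : v.valuation ℚ ((c : ℚ) - a) = 1 := by
    have : (c : ℚ) - a = (1 - (a : ℚ) / c) * c := by field_simp
    rw [this, map_mul, s2, e2, one_mul]
  refine ⟨1, ?_⟩
  rw [one_smul]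
  refine ⟨by simp [crv], ?_, by simp [crv], ?_, by simp [crv], ?_⟩
  · have := val_int_le v (-(a + c))
    simpa [crv] using this
  · have := val_int_le v (a * c)
    simpa [crv] using this
  · rw [crv_delta, map_mul, map_mul, map_mul, map_pow, map_pow, map_pow, e1, e2, e3,
      val_two_four v h2]
    simp

end Pool.Agent.E8helper15.FT
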