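import Pool.Agent.E8helper15.FT.Main3

/-! Project FT: semistability at `2`. -/

set_option autoImplicit false

namespace Pool.Agent.E8helper15.FT

open NumberField IsDedekindDomain
open Pool.Agent.TH876.FH (faltings IsPeriod GoodAt badNorm HjS LhS)

lemma parity (u v : ℤ) (w : ℚ) (hcop : IsCoprime u v) (hw : (u : ℚ) ^ 2 + (v : ℚ) ^ 2 = w ^ 2) :
    ∃ z₂ z₄ : ℤ, u ^ 4 + v ^ 4 = 4 * z₂ + 1 ∧ u ^ 4 * v ^ 4 = 16 * z₄ := by
  have hsq : IsSquare (((u ^ 2 + v ^ 2 : ℤ)) : ℚ) := ⟨w, by push_cast; rw [hw]; ring⟩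
  rw [Rat.isSquare_intCast_iff] at hsq
  obtain ⟨w', hw'⟩ := hsq
  obtain ⟨x, y, hxy⟩ := hcop
  rcases Int.even_or_odd' u with ⟨a, ha | ha⟩ <;> rcases Int.even_or_odd' v with ⟨b, hb | hb⟩
  · exfalso
    rw [ha, hb] at hxy
    have : 2 * (x * a + y * b) = 1 := by rw [← hxy]; ring
    omega
  · refine ⟨4 * a ^ 4 + (b ^ 2 + b) * (v ^ 2 + 1), a ^ 4 * v ^ 4, ?_, ?_⟩
    · rw [ha, hb]; ring
    · rw [ha]; ring
  · refine ⟨4 * b ^ 4 + (a ^ 2 + a) * (u ^ 2 + 1), b ^ 4 * u ^ 4, ?_, ?_⟩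
    · rw [ha, hb]; ring
    · rw [hb]; ring
  · exfalso
    rw [ha, hb] at hw'
    rcases Int.even_or_odd' w' with ⟨c, hc | hc⟩
    · rw [hc] at hw'
      have : 4 * (c * c - (a * a + a) - (b * b + b)) = 2 := by linarith
      omega
    · rw [hc] at hw'
      have : 4 * (c * c + c - (a * a + a) - (b * b + b)) = 1 := by linarith
      omega

lemma semi_two (u v : ℤ) (w : ℚ) (hcop : IsCoprime u v)
    (hw : (u : ℚ) ^ 2 + (v : ℚ) ^ 2 = w ^ 2) (p : HeightOneSpectrum (𝓞 ℚ))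
    (hp : p.valuation ℚ (2 : ℚ) ≠ 1) : SemistableAt p (crv (-u ^ 4) (-v ^ 4)) := by
  obtain ⟨z₂, z₄, h2, h4⟩ := parity u v w hcop hw
  have h2' : (u : ℚ) ^ 4 + (v : ℚ) ^ 4 = 4 * (z₂ : ℚ) + 1 := by exact_mod_cast h2
  have h4' : (u : ℚ) ^ 4 * (v : ℚ) ^ 4 = 16 * (z₄ : ℚ) := by exact_mod_cast h4
  set C : WeierstrassCurve.VariableChange ℚ := ⟨Units.mk0 2 two_ne_zero, 0, 1, 0⟩ with hC
  have e1 : (C • crv (-u ^ 4) (-v ^ 4)).a₁ = 1 := by
    rw [WeierstrassCurve.variableChange_a₁]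
    simp [hC, crv]
  have e2 : (C • crv (-u ^ 4) (-v ^ 4)).a₂ = (z₂ : ℚ) := by
    rw [WeierstrassCurve.variableChange_a₂]
    simp only [hC, crv]
    push_cast
    have : -(-(u : ℚ) ^ 4 + -(v : ℚ) ^ 4) = 4 * (z₂ : ℚ) + 1 := by linarith
    rw [this]
    simp
    ring
  have e3 : (C • crv (-u ^ 4) (-v ^ 4)).a₃ = 0 := by
    rw [WeierstrassCurve.variableChange_a₃]
    simp [hC, crv]
  have e4 : (C • crv (-u ^ 4) (-v ^ 4)).a₄ = (z₄ : ℚ) := by
    rw [WeierstrassCurve.variableChange_a₄]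
    simp only [hC, crv]
    push_cast
    have : -(u : ℚ) ^ 4 * -(v : ℚ) ^ 4 = 16 * (z₄ : ℚ) := by rw [← h4']; ring
    rw [this]
    simp
    ring
  have e6 : (C • crv (-u ^ 4) (-v ^ 4)).a₆ = 0 := by
    rw [WeierstrassCurve.variableChange_a₆]
    simp [hC, crv]
  have ec : (C • crv (-u ^ 4) (-v ^ 4)).c₄ =
      ((2 * (8 * z₂ ^ 2 + 4 * z₂ - 24 * z₄) + 1 : ℤ) : ℚ) := by
    simp only [WeierstrassCurve.c₄, WeierstrassCurve.b₂, WeierstrassCurve.b₄, e1, e2, e3, e4]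
    push_cast
    ring
  refine ⟨C, ?_, ?_, ?_, ?_, ?_, Or.inr ?_⟩
  · rw [e1, map_one]
  · rw [e2]; exact val_int_le p z₂
  · rw [e3, map_zero]; exact zero_le_one
  · rw [e4]; exact val_int_le p z₄
  · rw [e6, map_zero]; exact zero_le_one
  · rw [ec]
    have hco : IsCoprime (2 * (8 * z₂ ^ 2 + 4 * z₂ - 24 * z₄) + 1) (2 : ℤ) :=
      ⟨1, -(8 * z₂ ^ 2 + 4 * z₂ - 24 * z₄), by ring⟩
    rcases val_cop p _ _ hco with h | h
    · exact h
    · exact absurd (by simpa using h) hp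

/-- what we need of the conductor: it is at least the product of the bad primes, with equality for
the semistable curves -/
def IsCond (N : WeierstrassCurve ℚ → ℝ) : Prop :=
  (∀ E : WeierstrassCurve ℚ, E.Δ ≠ 0 → badNorm E ≤ N E) ∧
  ∀ E : WeierstrassCurve ℚ, E.Δ ≠ 0 →
    (∀ v : HeightOneSpectrum (𝓞 ℚ), SemistableAt v E) → N E = badNorm E

/-- the members of the family are semistable -/
lemma fam_semi (k m : ℕ) (E : WeierstrassCurve ℚ) (hE : E ∈ Fam k m)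
    (p : HeightOneSpectrum (𝓞 ℚ)) : SemistableAt p E := by
  obtain ⟨s, u, v, -, ht1, hv, hcop, huv, rfl⟩ := hE
  have hv' : (v : ℚ) ≠ 0 := by exact_mod_cast hv
  have h1 : (1 : ℚ) - (s ^ m) ^ 2 ≠ 0 := sub_ne_zero.2 (Ne.symm ht1)
  rw [crv_fam]
  by_cases hp : p.valuation ℚ (2 : ℚ) = 1
  · exact semi _ _ (hcop.pow).neg_neg p hp
  · refine semi_two u v (v * (1 + (s ^ m) ^ 2) / (1 - (s ^ m) ^ 2)) hcop ?_ p hp
    have hu : (u : ℚ) = v * (2 * s ^ m / (1 - (s ^ m) ^ 2)) := by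
      rw [← huv]
      field_simp
    rw [hu]
    field_simp
    ring

lemma like_bad : LikeConductor (fun E => badNorm E) :=
  ⟨fun _ _ => le_rfl, 1, fun E _ _ => by rw [one_mul]⟩

/-- the equivalence -/
theorem main4 (hj : HjS) (lh : LhS) (h : S_SUP) (hb : S_BAD) (hl : S_LB) (hp : S_PER)
    (hi : S_ITER) (hi2 : S_ITER2) (hi3 : S_ITER3) (hu : S_UP) (N : WeierstrassCurve ℚ → ℝ)
    (hN : IsCond N) (k m : ℕ) (hm : 1 ≤ m) :
    FreyN N Set.univ ↔ FreyN N (Fam k m) := by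
  constructor
  · intro hF ε hε
    obtain ⟨c, hc⟩ := hF ε hε
    exact ⟨c, fun E _ => hc E (Set.mem_univ _)⟩
  · intro hF
    have h1 : FreyN (fun E => badNorm E) (Fam k m) := by
      intro ε hε
      obtain ⟨c, hc⟩ := hF ε hε
      refine ⟨c, fun E hE hΔ τ hτ => ?_⟩
      have h2 := hc E hE hΔ τ hτ
      rwa [hN.2 E hΔ (fun p => fam_semi k m E hE p)] at h2
    have h2 := (main hj lh h hb hl hp hi hi2 hi3 hu (fun E => badNorm E) like_bad k m hm).2 h1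
    intro ε hε
    obtain ⟨c, hc⟩ := h2 ε hε
    refine ⟨c, fun E hE hΔ τ hτ => ?_⟩
    have h3 := hc E hE hΔ τ hτ
    have h4 := bad_ge hb hΔ
    have h5 : Real.log (badNorm E) ≤ Real.log (N E) := Real.log_le_log h4.1 (hN.1 E hΔ)
    have h6 : (1 / 2 + ε) * Real.log (badNorm E) ≤ (1 / 2 + ε) * Real.log (N E) :=
      mul_le_mul_of_nonneg_left h5 (by positivity)
    simp only at h3
    linarith

end Pool.Agent.E8helper15.FT
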