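import Pool.Agent.TH876.FH.Def

/-!
# Project FT (MP_c59389_nt): Frey's inequality is decided by Legendre curves whose parameter is a value of
an iterate of the logistic map `x ↦ 4 x (1 - x)`: statements of the pieces. Nothing is proved here.
-/

set_option autoImplicit false

namespace Pool.Agent.E8helper15.FT

open NumberField IsDedekindDomain
open Pool.Agent.TH876.FH (faltings IsPeriod GoodAt badNorm HjS LhS)

/-- the primes at which `l` or `1 - l` is not a unit -/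
def Supp {K : Type} [Field K] [NumberField K] (l : K) : Set (HeightOneSpectrum (𝓞 K)) :=
  {v | v.valuation K l ≠ 1 ∨ v.valuation K (1 - l) ≠ 1}

/-- the product of the norms of the primes at which `l` or `1 - l` is not a unit -/
noncomputable def lrad {K : Type} [Field K] [NumberField K] (l : K) : ℝ :=
  ∏ᶠ v ∈ Supp l, (Ideal.absNorm v.asIdeal : ℝ)

/-- the abc inequality for the members `l` of `S` -/
def Abc {K : Type} [Field K] [NumberField K] (S : Set K) : Prop :=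
  ∀ ε : ℝ, 0 < ε → ∃ c : ℝ, ∀ l ∈ S, l ≠ 0 → l ≠ 1 →
    Height.logHeight₁ l ≤ (1 + ε) * Real.log (lrad l) + c

/-- the logistic map -/
def logi {K : Type} [Field K] (x : K) : K := 4 * x * (1 - x)

/-- the curve `y² = x (x - 1) (x - l)` -/
def leg {K : Type} [Field K] (l : K) : WeierstrassCurve K := ⟨0, -(1 + l), 0, l, 0⟩

/-- Frey's inequality for the elliptic curves of the set `T`, with the product of the bad primes in
place of the conductor -/
def Frey {K : Type} [Field K] [NumberField K] (T : Set (WeierstrassCurve K)) : Prop :=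
  ∀ ε : ℝ, 0 < ε → ∃ c : ℝ, ∀ E ∈ T, E.Δ ≠ 0 →
    ∀ τ : InfinitePlace K → UpperHalfPlane, IsPeriod (E.c₄ ^ 3 / E.Δ) τ →
      Module.finrank ℚ K * faltings (E.c₄ ^ 3 / E.Δ) τ ≤ (1 / 2 + ε) * Real.log (badNorm E) + c

/-- HT. heights and the logistic map -/
def S_HT : Prop := ∀ (K : Type) [Field K] [NumberField K], ∃ c : ℝ, ∀ l : K,
  2 * Height.logHeight₁ l ≤ Height.logHeight₁ (logi l) + c ∧
  Height.logHeight₁ (1 - 2 * l) ≤ Height.logHeight₁ l + c ∧
  Height.logHeight₁ (1 - l) ≤ Height.logHeight₁ l + c ∧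
  Height.logHeight₁ (1728 * l) ≤ Height.logHeight₁ l + c

/-- SUP. The primes at which `y` has order at least `m`. -/
def S_SUP : Prop := ∀ (K : Type) [Field K] [NumberField K] (y : K), y ≠ 0 →
  {v : HeightOneSpectrum (𝓞 K) | v.valuation K y ≠ 1}.Finite ∧
  ∀ (m : ℕ), 1 ≤ m → ∀ F : Finset (HeightOneSpectrum (𝓞 K)),
    (∀ v ∈ F, v.valuation K y ≤ WithZero.exp (-(m : ℤ))) →
      m * ∑ v ∈ F, Real.log (Ideal.absNorm v.asIdeal) ≤ Height.logHeight₁ y

/-- ITER. One step. -/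
def S_ITER : Prop := ∀ (K : Type) [Field K] [NumberField K] (S : Set K), Abc (logi '' S) → Abc S

/-- JV. The modular invariant at good primes. -/
def S_JV : Prop := ∀ (K : Type) [Field K] [NumberField K] (E : WeierstrassCurve K), E.Δ ≠ 0 →
  ∀ v : HeightOneSpectrum (𝓞 K), GoodAt v E → v.valuation K (6 : K) = 1 → ∀ l : K,
    E.c₄ ^ 3 / E.Δ = 1728 * l → v.valuation K l ≤ 1 ∧
      (v.valuation K l ≠ 1 → v.valuation K l ≤ WithZero.exp (-(3 : ℤ))) ∧
      (v.valuation K (1 - l) ≠ 1 → v.valuation K (1 - l) ≤ WithZero.exp (-(2 : ℤ)))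

/-- RB. The radical. -/
def S_RB : Prop := ∀ (K : Type) [Field K] [NumberField K], ∃ c : ℝ, ∀ (l : K)
  (B : Finset (HeightOneSpectrum (𝓞 K))), l ≠ 0 → l ≠ 1 →
    (∀ v : HeightOneSpectrum (𝓞 K), v ∉ B → v.valuation K l ≤ 1 ∧
      (v.valuation K l ≠ 1 → v.valuation K l ≤ WithZero.exp (-(3 : ℤ))) ∧
      (v.valuation K (1 - l) ≠ 1 → v.valuation K (1 - l) ≤ WithZero.exp (-(2 : ℤ)))) →
    Real.log (lrad l) ≤ 5 / 6 * Height.logHeight₁ l +
      ∑ v ∈ B, Real.log (Ideal.absNorm v.asIdeal) + c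

/-- BAD. The bad primes are finite in number, `badNorm` is a finite product. -/
def S_BAD : Prop := ∀ (K : Type) [Field K] [NumberField K] (E : WeierstrassCurve K), E.Δ ≠ 0 →
  ∃ B : Finset (HeightOneSpectrum (𝓞 K)), (∀ v, v ∈ B ↔ ¬ GoodAt v E) ∧
    Real.log (badNorm E) = ∑ v ∈ B, Real.log (Ideal.absNorm v.asIdeal) ∧ 0 ≤ Real.log (badNorm E)

/-- UP. From abc to Frey's inequality for all elliptic curves. -/
def S_UP : Prop := ∀ (K : Type) [Field K] [NumberField K], Abc (Set.univ : Set K) →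
  Frey (Set.univ : Set (WeierstrassCurve K))

/-- LB. The bad primes of the Legendre curve. -/
def S_LB : Prop := ∀ (K : Type) [Field K] [NumberField K], ∃ c : ℝ, ∀ l : K, l ≠ 0 → l ≠ 1 →
  (leg l).Δ ≠ 0 ∧
  (leg l).c₄ ^ 3 / (leg l).Δ * (l ^ 2 * (1 - l) ^ 2) = 256 * (l ^ 2 - l + 1) ^ 3 ∧
  Real.log (badNorm (leg l)) ≤ Real.log (lrad l) + c ∧ 0 ≤ Real.log (lrad l)

/-- PER. Every number is a value of the modular invariant. -/
def S_PER : Prop := ∀ (K : Type) [Field K] [NumberField K] (j : K),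
  ∃ τ : InfinitePlace K → UpperHalfPlane, IsPeriod j τ

/-- DOWN. From Frey's inequality for Legendre curves to abc. -/
def S_DOWN : Prop := ∀ (K : Type) [Field K] [NumberField K] (S : Set K),
  Frey (leg '' S) → Abc S

/-- CNT. The values of the iterates are sparse. -/
def S_CNT : Prop := ∀ k : ℕ, ∃ C : ℝ, ∀ X : ℝ, 1 ≤ X →
  {l : ℚ | l ∈ Set.range (logi^[k] : ℚ → ℚ) ∧ max |(l.num : ℝ)| (l.den : ℝ) ≤ X}.Finite ∧
  ({l : ℚ | l ∈ Set.range (logi^[k] : ℚ → ℚ) ∧ max |(l.num : ℝ)| (l.den : ℝ) ≤ X}.ncard : ℝ) ≤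
    C * X ^ ((2 : ℝ) / 2 ^ k)

end Pool.Agent.E8helper15.FT
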